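import Pool.Agent.Q286.BD.Spec

/-!
# Project BD of helper286, job P7c (helper177): approximation of the Legendre kernel
-/

set_option autoImplicit false

namespace Pool.Agent.Q177.BD

open MeasureTheory Filter Topology Set

/-- a bump -/
noncomputable def ww (v : ℝ) : ℝ := max 0 ((v - 1 / 2) * (1 - v))

theorem ww_cont : Continuous ww := by
  unfold ww
  fun_prop

theorem ww_nonneg (v : ℝ) : 0 ≤ ww v := le_max_left _ _

theorem ww_supp (v : ℝ) (h : ww v ≠ 0) : 1 / 2 ≤ v ∧ v ≤ 1 := by
  have h1 : 0 < (v - 1 / 2) * (1 - v) := by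
    by_contra h2
    exact h (max_eq_left (not_lt.1 h2))
  constructor
  · by_contra h3
    nlinarith [not_le.1 h3]
  · by_contra h3
    nlinarith [not_le.1 h3]

theorem ww_pos {v : ℝ} (h1 : 1 / 2 < v) (h2 : v < 1) : 0 < ww v :=
  lt_of_lt_of_le (mul_pos (by linarith) (by linarith)) (le_max_right _ _)

theorem ww_le {v : ℝ} (h1 : 0 ≤ v) (h2 : v ≤ 1) : ww v ≤ 1 := by
  apply max_le zero_le_one
  nlinarith

/-- cutoffs -/
noncomputable def tt (k : ℕ) (v : ℝ) : ℝ :=
  max 0 (min 1 (min (((k : ℝ) + 2) * v - 1) (((k : ℝ) + 2) * (1 - v))))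

theorem tt_cont (k : ℕ) : Continuous (tt k) := by
  unfold tt
  fun_prop

theorem tt_nonneg (k : ℕ) (v : ℝ) : 0 ≤ tt k v := le_max_left _ _

theorem tt_le (k : ℕ) (v : ℝ) : tt k v ≤ 1 := max_le zero_le_one (min_le_left _ _)

theorem tt_supp (k : ℕ) (v : ℝ) (h : tt k v ≠ 0) : 1 / ((k : ℝ) + 2) ≤ v ∧ v ≤ 1 := by
  have h1 : 0 < min 1 (min (((k : ℝ) + 2) * v - 1) (((k : ℝ) + 2) * (1 - v))) := by
    by_contra h2
    exact h (max_eq_left (not_lt.1 h2))
  have h2 := lt_min_iff.1 (lt_min_iff.1 h1).2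
  have hk : (0 : ℝ) < (k : ℝ) + 2 := by positivity
  constructor
  · rw [div_le_iff₀ hk]
    linarith [h2.1]
  · by_contra h3
    nlinarith [h2.2, not_le.1 h3]

theorem tt_lim {v : ℝ} (h0 : 0 < v) (h1 : v < 1) : ∀ᶠ k : ℕ in atTop, tt k v = 1 := by
  obtain ⟨K, hK⟩ := exists_nat_gt (max (2 / v) (1 / (1 - v)))
  filter_upwards [eventually_ge_atTop K] with k hk
  have hk' : (K : ℝ) ≤ k := by exact_mod_cast hk
  have a1 : 2 / v < (k : ℝ) + 2 := by linarith [le_max_left (2 / v) (1 / (1 - v))]
  have a2 : 1 / (1 - v) < (k : ℝ) + 2 := by linarith [le_max_right (2 / v) (1 / (1 - v))]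
  rw [div_lt_iff₀ h0] at a1
  rw [div_lt_iff₀ (by linarith)] at a2
  unfold tt
  rw [min_eq_left (le_min (by linarith) (by linarith)), max_eq_right zero_le_one]

/-- the moments of the bump -/
noncomputable def MM (m : ℕ) : Matrix (Fin m) (Fin m) ℝ :=
  fun j k => ∫ v in (0 : ℝ)..1, ww v * v ^ ((j : ℕ) + k)

/-- the polynomial with given coefficients -/
noncomputable def rr {m : ℕ} (c : Fin m → ℝ) (v : ℝ) : ℝ := ∑ k : Fin m, c k * v ^ (k : ℕ)

theorem rr_cont {m : ℕ} (c : Fin m → ℝ) : Continuous (rr c) := by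
  unfold rr
  fun_prop

theorem MM_rr {m : ℕ} (c : Fin m → ℝ) (j : Fin m) :
    (MM m).mulVec c j = ∫ v in (0 : ℝ)..1, ww v * rr c v * v ^ (j : ℕ) := by
  have h : ∀ v : ℝ, ww v * rr c v * v ^ (j : ℕ) = ∑ k : Fin m, c k * (ww v * v ^ ((j : ℕ) + k)) := by
    intro v
    unfold rr
    rw [Finset.mul_sum, Finset.sum_mul]
    refine Finset.sum_congr rfl fun k _ => ?_
    rw [pow_add]; ring
  simp only [h]
  rw [intervalIntegral.integral_finsetSum]
  · unfold Matrix.mulVec dotProduct MM
    refine Finset.sum_congr rfl fun k _ => ?_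
    rw [intervalIntegral.integral_const_mul, mul_comm]
  · intro k _
    exact (continuous_const.mul (ww_cont.mul (continuous_pow _))).intervalIntegrable _ _

theorem rr_zero {m : ℕ} (c : Fin m → ℝ) (h : ∀ v : ℝ, 1 / 2 < v → v < 1 → rr c v = 0) : c = 0 := by
  set p : Polynomial ℝ := ∑ k : Fin m, Polynomial.C (c k) * Polynomial.X ^ (k : ℕ) with hp
  have h1 : ∀ v, p.eval v = rr c v := by
    intro v
    rw [hp, Polynomial.eval_finset_sum]
    simp [rr]
  have h2 : p = 0 := by
    apply Polynomial.eq_zero_of_infinite_isRoot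
    apply (Ioo_infinite (show (1 / 2 : ℝ) < 1 by norm_num)).mono
    intro v hv
    rw [mem_setOf_eq, Polynomial.IsRoot, h1]
    exact h v hv.1 hv.2
  funext k
  have h3 : p.coeff (k : ℕ) = c k := by
    rw [hp, Polynomial.finset_sum_coeff]
    simp only [Polynomial.coeff_C_mul, Polynomial.coeff_X_pow]
    rw [Finset.sum_eq_single k]
    · simp
    · intro b _ hb
      rw [if_neg (fun h => hb (Fin.ext h.symm)), mul_zero]
    · simp
  rw [← h3, h2]; simp

theorem MM_inj (m : ℕ) : Function.Injective (MM m).mulVecLin := by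
  rw [injective_iff_map_eq_zero]
  intro c hc
  apply rr_zero
  intro v h1 h2
  by_contra h3
  have h4 : ∫ v in (0 : ℝ)..1, ww v * rr c v * rr c v = 0 := by
    have h5 : ∀ v : ℝ, ww v * rr c v * rr c v = ∑ j : Fin m, c j * (ww v * rr c v * v ^ (j : ℕ)) := by
      intro v
      have h6 : ww v * rr c v * rr c v = ww v * rr c v * ∑ k : Fin m, c k * v ^ (k : ℕ) := rfl
      rw [h6, Finset.mul_sum]
      refine Finset.sum_congr rfl fun k _ => ?_
      ring
    simp only [h5]
    rw [intervalIntegral.integral_finsetSum]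
    · apply Finset.sum_eq_zero
      intro j _
      rw [intervalIntegral.integral_const_mul, ← MM_rr]
      have : (MM m).mulVec c j = 0 := congrFun hc j
      rw [this, mul_zero]
    · intro k _
      exact (continuous_const.mul ((ww_cont.mul (rr_cont c)).mul (continuous_pow _))).intervalIntegrable _ _
  have h6 : 0 < ∫ v in (0 : ℝ)..1, ww v * rr c v * rr c v := by
    apply intervalIntegral.integral_pos one_pos
    · exact ((ww_cont.mul (rr_cont c)).mul (rr_cont c)).continuousOn
    · intro x _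
      rw [mul_assoc]
      exact mul_nonneg (ww_nonneg x) (mul_self_nonneg _)
    · refine ⟨v, ⟨by linarith, h2.le⟩, ?_⟩
      rw [mul_assoc]
      exact mul_pos (ww_pos h1 h2) (mul_self_pos.2 h3)
  linarith

theorem exists_P (hleg : Pool.Agent.Q286.BD.S_leg) (n : ℕ) (η : ℝ) (hη : 0 < η) :
    ∃ (P : ℝ → ℝ) (δ : ℝ), Continuous P ∧ 0 < δ ∧ (∀ u, P u ≠ 0 → δ ≤ u ∧ u ≤ 1) ∧
      (∀ i : ℕ, 1 ≤ i → i < n + 1 → ∫ v in (0 : ℝ)..1, P v * v ^ i = 0) ∧
      ∫ v : ℝ, P v = 1 ∧ ∫ v : ℝ, P v ^ 2 ≤ ((n : ℝ) + 1) ^ 2 + η := by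
  obtain ⟨p, hpd, hp0, hpq⟩ := hleg (n + 1) (by omega)
  have hpc : Continuous fun v : ℝ => p.eval v := p.continuous
  set b : ℕ → Fin (n + 1) → ℝ := fun k j => ∫ v in (0 : ℝ)..1, p.eval v * (1 - tt k v) * v ^ (j : ℕ) with hb
  obtain ⟨B, hB⟩ : ∃ B : ℝ, ∀ v ∈ Icc (0 : ℝ) 1, |p.eval v| ≤ B :=
    (isCompact_Icc (a := (0 : ℝ)) (b := 1)).exists_bound_of_continuousOn hpc.continuousOn
  have hB0 : 0 ≤ B := le_trans (abs_nonneg _) (hB 0 ⟨le_rfl, zero_le_one⟩)
  have hae : ∀ᵐ v : ℝ, v ≠ 1 := by
    rw [ae_iff]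
    simp
  have hbl : Tendsto b atTop (𝓝 0) := by
    rw [tendsto_pi_nhds]
    intro j
    have h1 : Tendsto (fun k : ℕ => ∫ v in (0 : ℝ)..1, p.eval v * (1 - tt k v) * v ^ (j : ℕ)) atTop
        (𝓝 (∫ v in (0 : ℝ)..1, (0 : ℝ))) := by
      apply intervalIntegral.tendsto_integral_filter_of_dominated_convergence (fun _ => B)
      · exact Eventually.of_forall fun k =>
          ((hpc.mul (continuous_const.sub (tt_cont k))).mul (continuous_pow _)).aestronglyMeasurable
      · refine Eventually.of_forall fun k => Eventually.of_forall fun v hv => ?_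
        rw [uIoc_of_le zero_le_one] at hv
        rw [Real.norm_eq_abs, abs_mul, abs_mul]
        have a1 := hB v ⟨hv.1.le, hv.2⟩
        have a2 : |1 - tt k v| ≤ 1 := by
          rw [abs_le]
          constructor <;> linarith [tt_nonneg k v, tt_le k v]
        have a3 : |v ^ (j : ℕ)| ≤ 1 := by
          rw [abs_of_nonneg (pow_nonneg hv.1.le _)]
          exact pow_le_one₀ hv.1.le hv.2
        calc |p.eval v| * |1 - tt k v| * |v ^ (j : ℕ)| ≤ B * 1 * 1 := by gcongr
          _ = B := by ring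
      · exact intervalIntegrable_const
      · filter_upwards [hae] with v hv1 hv
        rw [uIoc_of_le zero_le_one] at hv
        have := tt_lim hv.1 (lt_of_le_of_ne hv.2 hv1)
        apply tendsto_const_nhds.congr'
        filter_upwards [this] with k hk
        rw [hk]; ring
    simpa using h1
  set e := LinearEquiv.ofInjectiveEndo (MM (n + 1)).mulVecLin (MM_inj (n + 1)) with he
  set c : ℕ → Fin (n + 1) → ℝ := fun k => e.symm (b k) with hc
  have hcl : Tendsto c atTop (𝓝 0) := by
    have h1 : Continuous (e.symm : (Fin (n + 1) → ℝ) →ₗ[ℝ] (Fin (n + 1) → ℝ)) :=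
      LinearMap.continuous_of_finiteDimensional _
    have h2 := (h1.tendsto 0).comp hbl
    simpa [Function.comp_def, hc] using h2
  have hMc : ∀ k, (MM (n + 1)).mulVec (c k) = b k := by
    intro k
    have : e (c k) = b k := by rw [hc]; exact e.apply_symm_apply _
    exact this
  set Pk : ℕ → ℝ → ℝ := fun k v => p.eval v * tt k v + ww v * rr (c k) v with hPk
  have hPc : ∀ k, Continuous (Pk k) := fun k =>
    (hpc.mul (tt_cont k)).add (ww_cont.mul (rr_cont _))
  have hPs : ∀ k u, Pk k u ≠ 0 → 1 / ((k : ℝ) + 2) ≤ u ∧ u ≤ 1 := by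
    intro k u hu
    by_cases h1 : tt k u = 0
    · have h2 : ww u ≠ 0 := by
        intro h2
        apply hu
        simp [hPk, h1, h2]
      obtain ⟨a1, a2⟩ := ww_supp u h2
      refine ⟨le_trans ?_ a1, a2⟩
      apply one_div_le_one_div_of_le (by norm_num)
      have : (0 : ℝ) ≤ k := Nat.cast_nonneg k
      linarith
    · exact tt_supp k u h1
  have hPm : ∀ k, ∀ i < n + 1, ∫ v in (0 : ℝ)..1, Pk k v * v ^ i = if i = 0 then 1 else 0 := by
    intro k i hi
    have h1 := congrFun (hMc k) ⟨i, hi⟩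
    rw [MM_rr] at h1
    simp only [hb] at h1
    have h2 : ∫ v in (0 : ℝ)..1, Pk k v * v ^ i =
        (∫ v in (0 : ℝ)..1, p.eval v * v ^ i) + ((∫ v in (0 : ℝ)..1, ww v * rr (c k) v * v ^ i) -
          ∫ v in (0 : ℝ)..1, p.eval v * (1 - tt k v) * v ^ i) := by
      rw [← intervalIntegral.integral_sub, ← intervalIntegral.integral_add]
      · congr 1
        funext v
        simp only [hPk]; ring
      · exact (hpc.mul (continuous_pow _)).intervalIntegrable _ _
      · exact (((ww_cont.mul (rr_cont _)).mul (continuous_pow _)).sub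
          ((hpc.mul (continuous_const.sub (tt_cont k))).mul (continuous_pow _))).intervalIntegrable _ _
      · exact ((ww_cont.mul (rr_cont _)).mul (continuous_pow _)).intervalIntegrable _ _
      · exact ((hpc.mul (continuous_const.sub (tt_cont k))).mul (continuous_pow _)).intervalIntegrable _ _
    rw [h2, h1, sub_self, add_zero]
    have h3 := hpq (Polynomial.X ^ i) (by
      rw [Polynomial.degree_X_pow]
      exact_mod_cast hi)
    simp only [Polynomial.eval_pow, Polynomial.eval_X] at h3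
    rw [h3, zero_pow_eq]
  have hlim : Tendsto (fun k => ∫ v in (0 : ℝ)..1, Pk k v ^ 2) atTop
      (𝓝 (∫ v in (0 : ℝ)..1, p.eval v ^ 2)) := by
    apply intervalIntegral.tendsto_integral_filter_of_dominated_convergence (fun _ => (B + (n + 1)) ^ 2)
    · exact Eventually.of_forall fun k => ((hPc k).pow 2).aestronglyMeasurable
    · have h1 : ∀ᶠ k in atTop, ‖c k‖ < 1 := by
        have := hcl.norm
        rw [norm_zero] at this
        exact this.eventually_lt_const one_pos
      filter_upwards [h1] with k hk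
      refine Eventually.of_forall fun v hv => ?_
      rw [uIoc_of_le zero_le_one] at hv
      have a1 := hB v ⟨hv.1.le, hv.2⟩
      have a2 : |rr (c k) v| ≤ n + 1 := by
        unfold rr
        refine (Finset.abs_sum_le_sum_abs _ _).trans ?_
        have : ∀ i ∈ (Finset.univ : Finset (Fin (n + 1))), |c k i * v ^ (i : ℕ)| ≤ 1 := by
          intro i _
          rw [abs_mul, abs_of_nonneg (pow_nonneg hv.1.le _)]
          have b1 : |c k i| ≤ 1 := le_trans (norm_le_pi_norm (c k) i) hk.le
          have b2 : v ^ (i : ℕ) ≤ 1 := pow_le_one₀ hv.1.le hv.2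
          have b3 : 0 ≤ v ^ (i : ℕ) := pow_nonneg hv.1.le _
          nlinarith [abs_nonneg (c k i)]
        refine (Finset.sum_le_sum this).trans ?_
        simp
      have a3 : |Pk k v| ≤ B + (n + 1) := by
        simp only [hPk]
        refine (abs_add_le _ _).trans ?_
        rw [abs_mul, abs_mul, abs_of_nonneg (tt_nonneg k v), abs_of_nonneg (ww_nonneg v)]
        have b1 := tt_nonneg k v
        have b2 := tt_le k v
        have b3 := ww_nonneg v
        have b4 := ww_le hv.1.le hv.2
        have b5 : |p.eval v| * tt k v ≤ B * 1 := by gcongr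
        have b6 : ww v * |rr (c k) v| ≤ 1 * (n + 1) := by gcongr
        linarith
      rw [Real.norm_eq_abs, abs_pow]
      gcongr
    · exact intervalIntegrable_const
    · filter_upwards [hae] with v hv1 hv
      rw [uIoc_of_le zero_le_one] at hv
      have h2 := tt_lim hv.1 (lt_of_le_of_ne hv.2 hv1)
      have h3 : Tendsto (fun k => rr (c k) v) atTop (𝓝 0) := by
        unfold rr
        have : Tendsto (fun k => ∑ i : Fin (n + 1), c k i * v ^ (i : ℕ)) atTop
            (𝓝 (∑ i : Fin (n + 1), (0 : ℝ) * v ^ (i : ℕ))) := by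
          apply tendsto_finset_sum
          intro i _
          exact ((tendsto_pi_nhds.1 hcl) i).mul_const _
        simpa using this
      have h4 : Tendsto (fun k => p.eval v * 1 + ww v * rr (c k) v) atTop (𝓝 (p.eval v)) := by
        have := (h3.const_mul (ww v)).const_add (p.eval v * 1)
        simpa using this
      have h5 : Tendsto (fun k => Pk k v) atTop (𝓝 (p.eval v)) := by
        apply h4.congr'
        filter_upwards [h2] with k hk
        simp only [hPk, hk]
      exact h5.pow 2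
  have hval : ∫ v in (0 : ℝ)..1, p.eval v ^ 2 = ((n : ℝ) + 1) ^ 2 := by
    have := hpq p hpd
    rw [hp0] at this
    push_cast at this
    rw [← this]
    congr 1
    funext v
    ring
  rw [hval] at hlim
  obtain ⟨k, hk⟩ := (hlim.eventually_lt_const (show ((n : ℝ) + 1) ^ 2 < ((n : ℝ) + 1) ^ 2 + η by linarith)).exists
  have hk2 : (0 : ℝ) < 1 / ((k : ℝ) + 2) := by positivity
  have hint : ∀ f : ℝ → ℝ, (∀ u, f u ≠ 0 → Pk k u ≠ 0) → ∫ v : ℝ, f v = ∫ v in (0 : ℝ)..1, f v := by
    intro f hf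
    rw [intervalIntegral.integral_eq_integral_of_support_subset]
    intro u hu
    have := hPs k u (hf u hu)
    exact ⟨by linarith, this.2⟩
  refine ⟨Pk k, 1 / ((k : ℝ) + 2), hPc k, hk2, hPs k, ?_, ?_, ?_⟩
  · intro i hi1 hi2
    rw [hPm k i hi2, if_neg (by omega)]
  · rw [hint (Pk k) fun u h => h]
    have := hPm k 0 (by omega)
    simpa using this
  · rw [hint (fun v => Pk k v ^ 2) fun u h h' => h (by simp [h'])]
    exact hk.le

end Pool.Agent.Q177.BD
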