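import Pool.Agent.Q177.BD.Sm
import Pool.Agent.Q177.BD.Apx

/-!
# Project BD of helper286, job P7c (helper177): nearly optimal weights
-/

set_option autoImplicit false

namespace Pool.Agent.Q177.BD

open Complex MeasureTheory Filter Topology Set
open Pool.Agent.Q286.BD (Fm Lap Wt S_gev S_leg S_cost)

/-- the transform of the rescaled measure -/
theorem resc {β C c A : ℝ} (hC : 0 < C) (hc : 0 < c) (hA : 0 < A) {ν : Measure ℝ}
    (hν : ∀ z : ℂ, ‖∫ w : ℝ, cexp (z * w) ∂ν‖ ≤
      C * Real.exp (2 * max z.re 0 - max (-z.re) 0 - c * |z.im| ^ β)) (z : ℂ) :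
    ‖∫ w : ℝ, cexp (z * w) ∂(ν.map fun w => (w + A) / (A + 2))‖ ≤
      C * Real.exp (max z.re 0 - (A + 1) / (A + 2) * max (-z.re) 0 - c / (A + 2) ^ β * |z.im| ^ β) := by
  have hA2 : (0 : ℝ) < A + 2 := by linarith
  have hA2' : ((A : ℂ) + 2) ≠ 0 := by exact_mod_cast hA2.ne'
  have hm : Measurable fun w : ℝ => (w + A) / (A + 2) := (measurable_id.add_const A).div_const _
  have hcont : Continuous fun w : ℝ => cexp (z * w) := by fun_prop
  rw [integral_map hm.aemeasurable hcont.aestronglyMeasurable]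
  have h1 : ∀ w : ℝ, cexp (z * (((w + A) / (A + 2) : ℝ) : ℂ)) =
      cexp (z * A / (A + 2)) * cexp (z / ((A + 2 : ℝ) : ℂ) * w) := by
    intro w
    rw [← Complex.exp_add]
    congr 1
    push_cast
    field_simp
    ring
  simp only [h1]
  rw [integral_const_mul, norm_mul, Complex.norm_exp]
  have h2 := hν (z / ((A + 2 : ℝ) : ℂ))
  rw [Complex.div_ofReal_re, Complex.div_ofReal_im, abs_div, abs_of_pos hA2,
    Real.div_rpow (abs_nonneg _) hA2.le] at h2
  have h3 : (z * A / (A + 2)).re = z.re * A / (A + 2) := by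
    have : z * A / (A + 2) = (z * ((A : ℝ) : ℂ)) / ((A + 2 : ℝ) : ℂ) := by push_cast; rfl
    rw [this, Complex.div_ofReal_re, Complex.re_mul_ofReal]
  rw [h3]
  calc Real.exp (z.re * A / (A + 2)) * ‖∫ w : ℝ, cexp (z / ((A + 2 : ℝ) : ℂ) * w) ∂ν‖
      ≤ Real.exp (z.re * A / (A + 2)) * (C * Real.exp (2 * max (z.re / (A + 2)) 0 -
        max (-(z.re / (A + 2))) 0 - c * (|z.im| ^ β / (A + 2) ^ β))) := by gcongr
    _ = C * Real.exp (z.re * A / (A + 2) + (2 * max (z.re / (A + 2)) 0 -
        max (-(z.re / (A + 2))) 0 - c * (|z.im| ^ β / (A + 2) ^ β))) := by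
        rw [Real.exp_add]; ring
    _ ≤ _ := by
        apply mul_le_mul_of_nonneg_left _ hC.le
        apply Real.exp_le_exp.2
        apply le_of_eq
        rcases le_total 0 z.re with h | h
        · have h4 : 0 ≤ z.re / (A + 2) := div_nonneg h hA2.le
          rw [max_eq_left h, max_eq_left h4, max_eq_right (by linarith : -z.re ≤ 0),
            max_eq_right (by linarith : -(z.re / (A + 2)) ≤ 0)]
          field_simp
          ring
        · have h4 : z.re / (A + 2) ≤ 0 := div_nonpos_of_nonpos_of_nonneg h hA2.le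
          rw [max_eq_right h, max_eq_right h4, max_eq_left (by linarith : 0 ≤ -z.re),
            max_eq_left (by linarith : 0 ≤ -(z.re / (A + 2)))]
          field_simp
          ring

/-- **job P7c** -/
theorem cost (h1 : S_gev) (h2 : S_leg) : S_cost := by
  intro β hβ0 hβ1 m hm η hη
  obtain ⟨n, rfl⟩ : ∃ n, m = n + 1 := ⟨m - 1, by omega⟩
  obtain ⟨P, δ, hP, hδ, hs, hmom, hmass, hsq⟩ := exists_P h2 n (η / 2) (by linarith)
  obtain ⟨ν, hνp, hνs, C, c, hC, hc, hν⟩ := h1 β hβ0 hβ1
  set A : ℝ := 2 * (((n : ℝ) + 1) ^ 2 + η) / η with hA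
  have hA0 : 0 < A := by positivity
  have hA2 : 0 < A + 2 := by linarith
  set r : ℝ := (A + 1) / (A + 2) with hr
  have hr0 : 0 < r := by positivity
  have hmeas : Measurable fun w : ℝ => (w + A) / (A + 2) := (measurable_id.add_const A).div_const _
  set ρ : Measure ℝ := ν.map fun w => (w + A) / (A + 2) with hρd
  haveI : IsProbabilityMeasure ρ := Measure.isProbabilityMeasure_map hmeas.aemeasurable
  have hρ : ∀ᵐ w ∂ρ, r ≤ w ∧ w ≤ 1 := by
    rw [hρd, ae_map_iff hmeas.aemeasurable (measurableSet_Icc (a := r) (b := 1))]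
    have h3 : ∀ᵐ w ∂ν, w ∈ Icc (1 : ℝ) 2 := by
      rw [ae_iff]
      exact hνs
    filter_upwards [h3] with w hw
    constructor
    · rw [hr]
      apply div_le_div_of_nonneg_right _ hA2.le
      linarith [hw.1]
    · rw [div_le_one hA2]
      linarith [hw.2]
  have hρt := resc hC hc hA0 hν
  set φ := ph n P with hφd
  have hφ : Continuous φ := ph_cont hP hδ hs
  have hφs : ∀ u, φ u ≠ 0 → δ ≤ u ∧ u ≤ 1 := ph_supp hP hδ hs hmom
  have hφm : ∫ u, φ u = 1 := ph_mass hP hδ hs hmom hmass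
  have hδ1 : δ ≤ 1 := by
    by_contra h
    have : ∀ u, φ u = 0 := by
      intro u
      by_contra h3
      have := hφs u h3
      linarith
    simp [this] at hφm
  have hφi : Integrable φ := hφ.integrable_of_hasCompactSupport (hcs hφs)
  set S := ∫ u, ‖φ u‖ with hSd
  have hS0 : 0 ≤ S := integral_nonneg fun u => norm_nonneg _
  refine ⟨mc φ ρ, ⟨mc_cont hφ hφs hr0 hρ, mc_mass hφ hδ hφs hr0 hρ hφm,
    ⟨r * δ, by positivity, mc_supp hδ hφs hr0 hρ⟩, ?_⟩, ?_⟩
  · refine ⟨r * δ, C * S + 1, c / (A + 2) ^ β * δ ^ β, by positivity, by positivity, by positivity, ?_⟩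
    intro z
    rw [mc_Lap hφ hδ hφs hr0 hρ z]
    set E := Real.exp (max z.re 0 - r * δ * max (-z.re) 0 - c / (A + 2) ^ β * δ ^ β * |z.im| ^ β) with hE
    have h3 : ∀ s : ℝ, ‖(φ s : ℂ) * ∫ w, cexp (z * s * w) ∂ρ‖ ≤ ‖φ s‖ * (C * E) := by
      intro s
      rw [norm_mul, Complex.norm_real]
      by_cases h4 : φ s = 0
      · rw [h4]; simp
      · obtain ⟨a1, a2⟩ := hφs s h4
        have hs0 : 0 < s := lt_of_lt_of_le hδ a1
        apply mul_le_mul_of_nonneg_left _ (norm_nonneg _)
        refine (hρt (z * s)).trans ?_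
        apply mul_le_mul_of_nonneg_left _ hC.le
        rw [hE]
        apply Real.exp_le_exp.2
        rw [Complex.re_mul_ofReal, Complex.im_mul_ofReal, abs_mul, abs_of_pos hs0,
          Real.mul_rpow (abs_nonneg _) hs0.le]
        have b1 : max (z.re * s) 0 ≤ max z.re 0 := by
          apply max_le _ (le_max_right _ _)
          rcases le_total 0 z.re with h | h
          · exact le_trans (by nlinarith) (le_max_left _ _)
          · exact le_trans (by nlinarith) (le_max_right _ _)
        have b2 : δ * max (-z.re) 0 ≤ max (-(z.re * s)) 0 := by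
          rcases le_total 0 (-z.re) with h | h
          · rw [max_eq_left h]
            exact le_trans (by nlinarith) (le_max_left _ _)
          · rw [max_eq_right h, mul_zero]
            exact le_max_right _ _
        have b3 : δ ^ β ≤ s ^ β := Real.rpow_le_rpow hδ.le a1 hβ0.le
        have b4 : 0 ≤ |z.im| ^ β := Real.rpow_nonneg (abs_nonneg _) _
        have b5 : r * (δ * max (-z.re) 0) ≤ r * max (-(z.re * s)) 0 :=
          mul_le_mul_of_nonneg_left b2 hr0.le
        have b6 : c / (A + 2) ^ β * (δ ^ β * |z.im| ^ β) ≤ c / (A + 2) ^ β * (|z.im| ^ β * s ^ β) := by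
          apply mul_le_mul_of_nonneg_left _ (by positivity)
          nlinarith
        have b7 : (A + 1) / (A + 2) = r := hr.symm
        rw [b7]
        nlinarith
    calc ‖∫ s : ℝ, (φ s : ℂ) * ∫ w, cexp (z * s * w) ∂ρ‖ ≤ ∫ s : ℝ, ‖φ s‖ * (C * E) :=
          norm_integral_le_of_norm_le (hφi.norm.mul_const _) (Eventually.of_forall h3)
      _ = S * (C * E) := by rw [integral_mul_const]
      _ ≤ (C * S + 1) * E := by
          have : 0 < E := Real.exp_pos _
          nlinarith
  · set F : ℝ → ℂ := fun x => Fm (n + 1) φ x with hF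
    have hFe : ∀ x, F x = -∫ v : ℝ, (P v : ℂ) * cexp (-(x * v * I)) := fun x => Fm_ph hP hδ hs hmom x
    have hPi : Integrable P := hP.integrable_of_hasCompactSupport (hcs hs)
    have hn : ∀ (x v : ℝ), ‖(P v : ℂ) * cexp (-(x * v * I))‖ = ‖P v‖ := by
      intro x v
      rw [norm_mul, Complex.norm_real, Complex.norm_exp]
      have : (-((x : ℂ) * v * I)).re = 0 := by
        simp
      rw [this, Real.exp_zero, mul_one]
    have hFc : Continuous F := by
      have h3 : Continuous fun x : ℝ => ∫ v : ℝ, (P v : ℂ) * cexp (-(x * v * I)) := by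
        apply continuous_of_dominated (bound := fun v => ‖P v‖)
        · intro x
          have : Continuous fun v : ℝ => (P v : ℂ) * cexp (-(x * v * I)) := by fun_prop
          exact this.aestronglyMeasurable
        · intro x
          exact Eventually.of_forall fun v => (hn x v).le
        · exact hPi.norm
        · exact Eventually.of_forall fun v => by fun_prop
      have h4 : F = fun x : ℝ => -∫ v : ℝ, (P v : ℂ) * cexp (-(x * v * I)) := funext hFe
      rw [h4]
      exact h3.neg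
    have hFb : ∀ x, ‖F x‖ ≤ ∫ v, ‖P v‖ := by
      intro x
      rw [hFe, norm_neg]
      refine (norm_integral_le_integral_norm _).trans (le_of_eq ?_)
      congr 1
      funext v
      exact hn x v
    obtain ⟨p1, p2⟩ := planch hP hs
    have hFn : ∀ x, ‖F x‖ ^ 2 = ‖∫ v : ℝ, (P v : ℂ) * cexp (-(x * v * I))‖ ^ 2 := by
      intro x
      rw [hFe, norm_neg]
    have hFi : Integrable fun x => ‖F x‖ ^ 2 := by
      simp only [hFn]
      exact p1
    obtain ⟨q1, q2⟩ := sq_avg (ρ := ρ) hFc hFb hFi hr0 hρ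
    have hG : ∀ x, Fm (n + 1) (mc φ ρ) x = ∫ w, F (x * w) ∂ρ := fun x => mc_Fm hφ hδ hφs hr0 hρ (n + 1) x
    simp only [hG]
    refine ⟨q1, ?_⟩
    have e1 : ∫ x, ‖F x‖ ^ 2 = 2 * Real.pi * ∫ v, P v ^ 2 := by
      rw [← p2]
      simp only [hFn]
      rw [← mul_assoc, mul_one_div_cancel (by positivity), one_mul]
    rw [e1] at q2
    have e2 : 1 / (2 * Real.pi) * ∫ x : ℝ, ‖∫ w, F (x * w) ∂ρ‖ ^ 2 ≤ 1 / r * ∫ v, P v ^ 2 := by
      calc 1 / (2 * Real.pi) * ∫ x : ℝ, ‖∫ w, F (x * w) ∂ρ‖ ^ 2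
          ≤ 1 / (2 * Real.pi) * (1 / r * (2 * Real.pi * ∫ v, P v ^ 2)) := by gcongr
        _ = 1 / r * ∫ v, P v ^ 2 := by field_simp
    refine e2.trans ?_
    have e3 : 1 / r = 1 + 1 / (A + 1) := by
      rw [hr]
      field_simp
      ring
    have e4 : 1 / r * ∫ v, P v ^ 2 ≤ 1 / r * (((n : ℝ) + 1) ^ 2 + η / 2) := by gcongr
    refine e4.trans ?_
    rw [e3]
    have e5 : 1 / (A + 1) * (((n : ℝ) + 1) ^ 2 + η / 2) ≤ η / 2 := by
      rw [one_div, inv_mul_le_iff₀ (by linarith)]
      have e6 : A * η = 2 * (((n : ℝ) + 1) ^ 2 + η) := by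
        rw [hA]
        field_simp
      nlinarith
    push_cast
    linarith

end Pool.Agent.Q177.BD
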