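import Pool.Agent.Q181.BD.Stm3
import Mathlib.Algebra.AffineMonoid.UniqueSums
import Mathlib.Algebra.MonoidAlgebra.NoZeroDivisors

set_option autoImplicit false

/-!
# `det A` for `A * A^* = 4` (BD-DETFOUR, A7)
-/

namespace Pool.Agent.Q177.BD

open Pool.Agent.Q181.BD

theorem up (G : Type) [CommGroup G] (htf : ∀ g : G, ∀ k : ℕ, 0 < k → g ^ k = 1 → g = 1) :
    UniqueProds G where
  uniqueMul_of_nonempty := by
    intro A B hA hB
    classical
    set H := Subgroup.closure ((A ∪ B : Finset G) : Set G) with hH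
    haveI hfg : Group.FG H := Group.closure_finset_fg (A ∪ B)
    haveI : Monoid.FG H := Monoid.fg_of_group_fg
    haveI : IsMulTorsionFree H := by
      refine ⟨fun n hn a b hab => ?_⟩
      have h1 : (a * b⁻¹) ^ n = 1 := by
        rw [mul_pow, inv_pow]
        simp only at hab
        rw [hab, mul_inv_cancel]
      have h2 : ((a * b⁻¹ : H) : G) = 1 := by
        apply htf _ n (Nat.pos_of_ne_zero hn)
        exact_mod_cast congrArg Subtype.val h1
      have h3 : a * b⁻¹ = 1 := Subtype.ext h2
      exact mul_inv_eq_one.mp h3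
    haveI : TwoUniqueProds H := AffineMonoid.to_twoUniqueProds
    haveI : UniqueProds H := TwoUniqueProds.toUniqueProds H
    have memA : ∀ a ∈ A, a ∈ H := fun a ha =>
      Subgroup.subset_closure (by simp [ha])
    have memB : ∀ a ∈ B, a ∈ H := fun a ha =>
      Subgroup.subset_closure (by simp [ha])
    have hA' : (A.subtype (fun x => x ∈ H)).Nonempty := by
      obtain ⟨a, ha⟩ := hA
      exact ⟨⟨a, memA a ha⟩, by simp [ha]⟩
    have hB' : (B.subtype (fun x => x ∈ H)).Nonempty := by
      obtain ⟨a, ha⟩ := hB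
      exact ⟨⟨a, memB a ha⟩, by simp [ha]⟩
    obtain ⟨a0, ha0, b0, hb0, hu⟩ := UniqueProds.uniqueMul_of_nonempty (G := H) hA' hB'
    rw [Finset.mem_subtype] at ha0 hb0
    refine ⟨a0, ha0, b0, hb0, fun a b ha hb hab => ?_⟩
    have h := hu (a := ⟨a, memA a ha⟩) (b := ⟨b, memB b hb⟩) (by simpa using ha) (by simpa using hb)
      (Subtype.ext hab)
    exact ⟨congrArg Subtype.val h.1, congrArg Subtype.val h.2⟩

section

variable {G : Type} [CommGroup G]

theorem brr_coeff (f : MonoidAlgebra ℤ G) (g : G) : (brr G f).coeff g = f.coeff g⁻¹ := by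
  have h : (brr G f).coeff = Finsupp.mapDomain (fun x : G => x⁻¹) f.coeff := rfl
  rw [h]
  have := Finsupp.mapDomain_apply (inv_injective (G := G)) f.coeff g⁻¹
  rw [inv_inv] at this
  exact this

theorem brr_coeff' (R : Type) [Semiring R] (f : MonoidAlgebra R G) (g : G) :
    (MonoidAlgebra.mapDomainRingHom R (invMonoidHom : G →* G) f).coeff g = f.coeff g⁻¹ := by
  have h : (MonoidAlgebra.mapDomainRingHom R (invMonoidHom : G →* G) f).coeff =
    Finsupp.mapDomain (fun x : G => x⁻¹) f.coeff := rfl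
  rw [h]
  have := Finsupp.mapDomain_apply (inv_injective (G := G)) f.coeff g⁻¹
  rw [inv_inv] at this
  exact this

theorem coeff_one_mul_brr (f : MonoidAlgebra ℤ G) :
    (f * brr G f).coeff 1 = ∑ g ∈ f.coeff.support, f.coeff g ^ 2 := by
  rw [MonoidAlgebra.coeff_mul_apply_left, Finsupp.sum]
  refine Finset.sum_congr rfl fun g _ => ?_
  rw [brr_coeff, mul_one, inv_inv, sq]

theorem base (f : MonoidAlgebra ℤ G) (h : f * brr G f = 1) :
    ∃ (g : G) (s : ℤ), f = MonoidAlgebra.single g s := by
  classical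
  have h1 : ∑ g ∈ f.coeff.support, f.coeff g ^ 2 = 1 := by
    rw [← coeff_one_mul_brr, h, MonoidAlgebra.one_def, MonoidAlgebra.coeff_single, 
      Finsupp.single_eq_same]
  have hne : f.coeff.support.Nonempty := by
    rw [Finset.nonempty_iff_ne_empty]
    intro he
    rw [he] at h1
    simp at h1
  obtain ⟨g, hg⟩ := hne
  refine ⟨g, f.coeff g, ?_⟩
  have hpos : ∀ x ∈ f.coeff.support, 1 ≤ f.coeff x ^ 2 := by
    intro x hx
    have hx0 : f.coeff x ≠ 0 := Finsupp.mem_support_iff.mp hx
    have : 0 < f.coeff x ^ 2 := by positivity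
    omega
  have honly : ∀ x ∈ f.coeff.support, x = g := by
    intro x hx
    by_contra hxg
    have h2 : ∑ y ∈ ({x, g} : Finset G), f.coeff y ^ 2 ≤ ∑ y ∈ f.coeff.support, f.coeff y ^ 2 := by
      refine Finset.sum_le_sum_of_subset_of_nonneg ?_ (fun _ _ _ => by positivity)
      intro y hy
      rcases Finset.mem_insert.mp hy with h | h
      · rw [h]; exact hx
      · rw [Finset.mem_singleton.mp h]; exact hg
    rw [Finset.sum_pair hxg, h1] at h2
    have h3 := hpos x hx
    have h4 := hpos g hg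
    omega
  ext x
  rw [MonoidAlgebra.coeff_single]
  by_cases hx : x = g
  · rw [hx, Finsupp.single_eq_same]
  · rw [Finsupp.single_eq_of_ne hx]
    by_contra hne
    exact hx (honly x (Finsupp.mem_support_iff.mpr hne))

theorem red_brr (f : MonoidAlgebra ℤ G) :
    MonoidAlgebra.mapRingHom G (Int.castRingHom (ZMod 2)) (brr G f) =
      MonoidAlgebra.mapDomainRingHom (ZMod 2) (invMonoidHom : G →* G)
        (MonoidAlgebra.mapRingHom G (Int.castRingHom (ZMod 2)) f) := by
  ext x
  rw [MonoidAlgebra.coeff_mapRingHom, brr_coeff, brr_coeff', MonoidAlgebra.coeff_mapRingHom]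

theorem div2 (f : MonoidAlgebra ℤ G)
    (h : MonoidAlgebra.mapRingHom G (Int.castRingHom (ZMod 2)) f = 0) :
    ∃ f' : MonoidAlgebra ℤ G, f = 2 * f' := by
  have h1 : ∀ x, (2 : ℤ) ∣ f.coeff x := by
    intro x
    have h2 : (MonoidAlgebra.mapRingHom G (Int.castRingHom (ZMod 2)) f).coeff x = 0 := by
      rw [h]; rfl
    rw [MonoidAlgebra.coeff_mapRingHom] at h2
    exact (ZMod.intCast_zmod_eq_zero_iff_dvd _ 2).mp (by simpa using h2)
  refine ⟨MonoidAlgebra.ofCoeff (f.coeff.mapRange (fun z : ℤ => z / 2) (by norm_num)), ?_⟩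
  ext x
  rw [two_mul, MonoidAlgebra.coeff_add, Finsupp.add_apply]
  simp only [Finsupp.mapRange_apply]
  have := h1 x
  omega

theorem step (hup : UniqueProds G) (n : ℕ) :
    ∀ f : MonoidAlgebra ℤ G, f * brr G f = 4 ^ n →
      ∃ (g : G) (s : ℤ), f = MonoidAlgebra.single g s := by
  induction n with
  | zero => exact fun f h => base f (by simpa using h)
  | succ n ih =>
    intro f hf
    haveI := hup
    set r := MonoidAlgebra.mapRingHom G (Int.castRingHom (ZMod 2)) with hr
    have h4 : r 4 = 0 := by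
      have : (4 : MonoidAlgebra ℤ G) = ((4 : ℕ) : MonoidAlgebra ℤ G) := by norm_num
      rw [this, map_natCast]
      have h2 : ((4 : ℕ) : MonoidAlgebra (ZMod 2) G) = algebraMap (ZMod 2) _ ((4 : ℕ) : ZMod 2) := by
        rw [map_natCast]
      rw [h2]
      have h3 : ((4 : ℕ) : ZMod 2) = 0 := by decide
      rw [h3, map_zero]
    have h0 : r f * r (brr G f) = 0 := by
      rw [← map_mul, hf, map_pow, h4, zero_pow (by omega)]
    have hf0 : r f = 0 := by
      haveI : Fact (Nat.Prime 2) := ⟨Nat.prime_two⟩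
      rcases mul_eq_zero.mp h0 with h | h
      · exact h
      · rw [hr, red_brr] at h
        ext x
        have hx := congrArg (fun y => MonoidAlgebra.coeff y x⁻¹) h
        rw [brr_coeff', inv_inv] at hx
        rw [hr, hx]
        rfl
    obtain ⟨f', hf'⟩ := div2 f hf0
    have hb : brr G f = 2 * brr G f' := by
      rw [hf', map_mul, map_ofNat]
    have h5 : (4 : MonoidAlgebra ℤ G) * (f' * brr G f') = 4 * 4 ^ n := by
      rw [hb, hf', pow_succ] at hf
      linear_combination hf
    have h6 : f' * brr G f' = 4 ^ n := by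
      exact mul_left_cancel₀ (by
        intro h
        have := congrArg (fun y => MonoidAlgebra.coeff y (1 : G)) h
        have h7 : (4 : MonoidAlgebra ℤ G) = MonoidAlgebra.single 1 4 := by
          have h8 : (4 : MonoidAlgebra ℤ G) = algebraMap ℤ _ (4 : ℤ) := by
            rw [map_ofNat]
          rw [h8]; rfl
        rw [h7, MonoidAlgebra.coeff_single, Finsupp.single_eq_same] at this
        exact absurd this (by norm_num)) h5
    obtain ⟨g, s, hgs⟩ := ih f' h6
    refine ⟨g, 2 * s, ?_⟩
    rw [hf', hgs, two_mul, two_mul, MonoidAlgebra.single_add]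

theorem bin_single (g : G) (s : ℤ) : Bin (MonoidAlgebra.single g s) := by
  refine ⟨{((g, s), (1, 0))}, ?_⟩
  simp

end

theorem t_detfour : S_detfour := by
  intro G _ htf κ _ _ A hA
  have h1 : A.det * brr G A.det = 4 ^ Fintype.card κ := by
    have h2 : brr G A.det = (A.transpose.map (brr G)).det := by
      rw [RingHom.map_det, RingHom.mapMatrix_apply, ← Matrix.det_transpose, Matrix.transpose_map]
    rw [h2, ← Matrix.det_mul, hA]
    have h3 : (4 : Matrix κ κ (MonoidAlgebra ℤ G)) = (4 : MonoidAlgebra ℤ G) • 1 := by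
      rw [Matrix.smul_one_eq_diagonal]
      rfl
    rw [h3, Matrix.det_smul, Matrix.det_one, mul_one]
  obtain ⟨g, s, h⟩ := step (up G htf) _ _ h1
  rw [h]
  exact bin_single g s

end Pool.Agent.Q177.BD
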