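import Pool.Agent.Q286.BD.Spec

/-!
# Project BD of helper286, job P7c (helper177): from a function with moments to a weight
-/

set_option autoImplicit false

namespace Pool.Agent.Q177.BD

open Complex MeasureTheory Filter Topology Set

/-- the kernel `exp (- i y) ∑_{j < m} (i y)^j / j!` -/
noncomputable def Km (m : ℕ) (y : ℝ) : ℂ :=
  cexp (-(y * I)) * ∑ j ∈ Finset.range m, ((y * I) ^ j / (j.factorial : ℂ))

theorem Km_hasDerivAt (n : ℕ) (y : ℝ) :
    HasDerivAt (fun y : ℝ => Km (n + 1) y) (-(I * cexp (-(y * I)) * ((y * I) ^ n / (n.factorial : ℂ)))) y := by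
  have hid : HasDerivAt (fun y : ℝ => (y : ℂ) * I) I y := by
    simpa using (Complex.ofRealCLM.hasDerivAt (x := y)).mul_const I
  have hexp : HasDerivAt (fun y : ℝ => cexp (-((y : ℂ) * I))) (-(I * cexp (-(y * I)))) y := by
    have h : HasDerivAt (fun y : ℝ => -((y : ℂ) * I)) (-I) y := hid.neg
    refine h.cexp.congr_deriv ?_
    ring
  induction n with
  | zero =>
    have : (fun y : ℝ => Km (0 + 1) y) = fun y : ℝ => cexp (-((y : ℂ) * I)) := by
      funext y
      simp [Km]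
    rw [this]
    simpa using hexp
  | succ n ih =>
    have : (fun y : ℝ => Km (n + 1 + 1) y) = fun y : ℝ => Km (n + 1) y +
        cexp (-((y : ℂ) * I)) * (((y : ℂ) * I) ^ (n + 1) / ((n + 1).factorial : ℂ)) := by
      funext y
      unfold Km
      rw [Finset.sum_range_succ _ (n + 1), mul_add]
    rw [this]
    have h1 : HasDerivAt (fun y : ℝ => ((y : ℂ) * I) ^ (n + 1) / ((n + 1).factorial : ℂ))
        (((n + 1 : ℕ) : ℂ) * ((y : ℂ) * I) ^ n * I / ((n + 1).factorial : ℂ)) y := by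
      have := (hid.pow (n + 1)).div_const ((n + 1).factorial : ℂ)
      simpa using this
    refine (ih.add (hexp.mul h1)).congr_deriv ?_
    have hf : ((n.factorial : ℕ) : ℂ) ≠ 0 := by exact_mod_cast n.factorial_ne_zero
    have hn : ((n : ℂ) + 1) ≠ 0 := by exact_mod_cast n.succ_ne_zero
    rw [Nat.factorial_succ]
    push_cast
    field_simp
    ring

theorem Km_continuous (m : ℕ) : Continuous (Km m) := by
  unfold Km
  fun_prop

/-- `u^(-n) K_n (x u)` -/
noncomputable def kk (x : ℝ) (n : ℕ) (u : ℝ) : ℂ := Km n (x * u) / (u : ℂ) ^ n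

theorem kk_hasDerivAt (x : ℝ) (n : ℕ) {u : ℝ} (hu : u ≠ 0) :
    HasDerivAt (kk x (n + 1)) (-((n + 1 : ℂ) * kk x (n + 2) u)) u := by
  have hu' : (u : ℂ) ≠ 0 := by exact_mod_cast hu
  have h1 : HasDerivAt (fun u : ℝ => Km (n + 1) (x * u))
      (x * -(I * cexp (-(((x * u : ℝ) : ℂ) * I)) * ((((x * u : ℝ) : ℂ) * I) ^ n / (n.factorial : ℂ)))) u := by
    have h2 : HasDerivAt (fun u : ℝ => x * u) x u := by simpa using (hasDerivAt_id u).const_mul x
    have h3 := (Km_hasDerivAt n (x * u)).scomp u h2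
    simpa [Function.comp_def] using h3
  have h4 : HasDerivAt (fun u : ℝ => (u : ℂ) ^ (n + 1)) (((n + 1 : ℕ) : ℂ) * (u : ℂ) ^ n) u := by
    have h : HasDerivAt (fun u : ℝ => (u : ℂ)) 1 u := Complex.ofRealCLM.hasDerivAt (x := u)
    refine (h.pow (n + 1)).congr_deriv ?_
    simp
  have h5 := h1.div h4 (pow_ne_zero _ hu')
  have h6 : kk x (n + 1) = fun u : ℝ => Km (n + 1) (x * u) / (u : ℂ) ^ (n + 1) := rfl
  rw [h6]
  refine h5.congr_deriv ?_
  unfold kk
  have h7 : Km (n + 2) (x * u) = Km (n + 1) (x * u) +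
      cexp (-(((x * u : ℝ) : ℂ) * I)) * ((((x * u : ℝ) : ℂ) * I) ^ (n + 1) / ((n + 1).factorial : ℂ)) := by
    unfold Km
    rw [Finset.sum_range_succ _ (n + 1), mul_add]
  rw [h7]
  have hf : ((n.factorial : ℕ) : ℂ) ≠ 0 := by exact_mod_cast n.factorial_ne_zero
  have hn : ((n : ℂ) + 1) ≠ 0 := by exact_mod_cast n.succ_ne_zero
  rw [Nat.factorial_succ]
  push_cast
  field_simp
  ring

/-- iterated primitives of `u P(u)` -/
noncomputable def QQ (P : ℝ → ℝ) : ℕ → ℝ → ℝ
  | 0 => fun u => u * P u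
  | (n + 1) => fun u => ∫ v in (0 : ℝ)..u, QQ P n v

variable {P : ℝ → ℝ}

theorem QQ_cont (hP : Continuous P) (n : ℕ) : Continuous (QQ P n) := by
  induction n with
  | zero => exact continuous_id.mul hP
  | succ n ih =>
    exact intervalIntegral.continuous_primitive (fun a b => ih.intervalIntegrable a b) 0

theorem QQ_hasDerivAt (hP : Continuous P) (n : ℕ) (u : ℝ) :
    HasDerivAt (QQ P (n + 1)) (QQ P n u) u :=
  intervalIntegral.integral_hasDerivAt_right ((QQ_cont hP n).intervalIntegrable _ _)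
    ((QQ_cont hP n).stronglyMeasurableAtFilter _ _) (QQ_cont hP n).continuousAt

theorem QQ_left {δ : ℝ} (hδ : 0 < δ) (hs : ∀ u, P u ≠ 0 → δ ≤ u ∧ u ≤ 1) (n : ℕ) :
    ∀ u : ℝ, u < δ → QQ P n u = 0 := by
  induction n with
  | zero =>
    intro u hu
    have : P u = 0 := by
      by_contra h
      exact absurd (hs u h).1 (not_le.2 hu)
    simp [QQ, this]
  | succ n ih =>
    intro u hu
    have : ∫ v in (0 : ℝ)..u, QQ P n v = ∫ v in (0 : ℝ)..u, (0 : ℝ) := by
      apply intervalIntegral.integral_congr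
      intro v hv
      apply ih
      rcases le_total 0 u with h | h
      · rw [uIcc_of_le h] at hv
        exact lt_of_le_of_lt hv.2 hu
      · rw [uIcc_of_ge h] at hv
        exact lt_of_le_of_lt hv.2 hδ
    show ∫ v in (0 : ℝ)..u, QQ P n v = 0
    rw [this]; simp

theorem QQ_mom (hP : Continuous P) (m : ℕ)
    (hmom : ∀ i : ℕ, 1 ≤ i → i < m → ∫ v in (0 : ℝ)..1, P v * v ^ i = 0) (n : ℕ) :
    ∀ j : ℕ, n + j + 1 < m → ∫ v in (0 : ℝ)..1, QQ P n v * v ^ j = 0 := by
  induction n with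
  | zero =>
    intro j hj
    have := hmom (j + 1) (by omega) (by omega)
    rw [← this]
    congr 1
    funext v
    simp only [QQ]
    ring
  | succ n ih =>
    intro j hj
    have h1 : QQ P (n + 1) 1 = 0 := by
      have := ih 0 (by omega)
      simpa [QQ] using this
    have h0 : QQ P (n + 1) 0 = 0 := by simp [QQ]
    have hj0 : ((j : ℝ) + 1) ≠ 0 := by positivity
    have h2 : ∀ v ∈ uIcc (0 : ℝ) 1, HasDerivAt (fun v : ℝ => v ^ (j + 1) / ((j : ℝ) + 1)) (v ^ j) v := by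
      intro v _
      refine ((hasDerivAt_pow (j + 1) v).div_const ((j : ℝ) + 1)).congr_deriv ?_
      rw [Nat.add_sub_cancel]
      push_cast
      field_simp
    have h3 := intervalIntegral.integral_mul_deriv_eq_deriv_mul (a := 0) (b := 1)
      (fun v _ => QQ_hasDerivAt hP n v) h2 ((QQ_cont hP n).intervalIntegrable _ _)
      ((continuous_pow j).intervalIntegrable _ _)
    rw [h3, h1, h0]
    have h4 : ∫ v in (0 : ℝ)..1, QQ P n v * (v ^ (j + 1) / ((j : ℝ) + 1)) =
        (∫ v in (0 : ℝ)..1, QQ P n v * v ^ (j + 1)) * ((j : ℝ) + 1)⁻¹ := by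
      rw [← intervalIntegral.integral_mul_const]
      congr 1
      funext v
      rw [div_eq_mul_inv]
      ring
    rw [h4, ih (j + 1) (by omega)]
    ring

theorem QQ_one (hP : Continuous P) (m : ℕ)
    (hmom : ∀ i : ℕ, 1 ≤ i → i < m → ∫ v in (0 : ℝ)..1, P v * v ^ i = 0) (n : ℕ) (hn : n + 1 < m) :
    QQ P (n + 1) 1 = 0 := by
  have := QQ_mom hP m hmom n 0 (by omega)
  simpa [QQ] using this

theorem QQ_right (hP : Continuous P) {δ : ℝ} (hs : ∀ u, P u ≠ 0 → δ ≤ u ∧ u ≤ 1) (m : ℕ)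
    (hmom : ∀ i : ℕ, 1 ≤ i → i < m → ∫ v in (0 : ℝ)..1, P v * v ^ i = 0) (n : ℕ) :
    n < m → ∀ u : ℝ, 1 < u → QQ P n u = 0 := by
  induction n with
  | zero =>
    intro _ u hu
    have : P u = 0 := by
      by_contra h
      exact absurd (hs u h).2 (not_le.2 hu)
    simp [QQ, this]
  | succ n ih =>
    intro hn u hu
    have h1 := QQ_one hP m hmom n hn
    have h2 : QQ P (n + 1) u = QQ P (n + 1) 1 + ∫ v in (1 : ℝ)..u, QQ P n v := by
      show ∫ v in (0 : ℝ)..u, QQ P n v = (∫ v in (0 : ℝ)..1, QQ P n v) + _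
      rw [intervalIntegral.integral_add_adjacent_intervals] <;>
        exact (QQ_cont hP n).intervalIntegrable _ _
    rw [h2, h1, zero_add, intervalIntegral.integral_of_le hu.le]
    have h3 : ∫ v in Ioc (1 : ℝ) u, QQ P n v = ∫ v in Ioc (1 : ℝ) u, (0 : ℝ) :=
      setIntegral_congr_fun measurableSet_Ioc fun v hv => ih (by omega) v hv.1
    rw [h3]; simp

/-- repeated integration by parts -/
theorem QQ_kk (hP : Continuous P) {δ : ℝ} (hδ : 0 < δ) (hs : ∀ u, P u ≠ 0 → δ ≤ u ∧ u ≤ 1) (m : ℕ)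
    (hmom : ∀ i : ℕ, 1 ≤ i → i < m → ∫ v in (0 : ℝ)..1, P v * v ^ i = 0) (x : ℝ) (n : ℕ) :
    n < m → ∫ u in (δ / 2)..1, kk x 1 u * (QQ P 0 u : ℂ) =
      (n.factorial : ℂ) * ∫ u in (δ / 2)..1, kk x (n + 1) u * (QQ P n u : ℂ) := by
  induction n with
  | zero => intro _; simp
  | succ n ih =>
    intro hn
    have hmem : ∀ u ∈ uIcc (δ / 2) 1, u ≠ 0 := by
      intro u hu
      have h1 : min (δ / 2) 1 ≤ u := hu.1
      have h2 : 0 < min (δ / 2) 1 := lt_min (by linarith) one_pos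
      exact (lt_of_lt_of_le h2 h1).ne'
    have hkc : ∀ k, ContinuousOn (kk x (k + 1)) (uIcc (δ / 2) 1) := fun k u hu =>
      (kk_hasDerivAt x k (hmem u hu)).continuousAt.continuousWithinAt
    have hv : ∀ u ∈ uIcc (δ / 2) 1, HasDerivAt (fun u : ℝ => ((QQ P (n + 1) u : ℝ) : ℂ))
        ((QQ P n u : ℝ) : ℂ) u := fun u _ => (QQ_hasDerivAt hP n u).ofReal_comp
    have h3 := intervalIntegral.integral_mul_deriv_eq_deriv_mul (a := δ / 2) (b := 1)
      (fun u hu => kk_hasDerivAt x n (hmem u hu)) hv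
      ((((hkc (n + 1)).const_smul (n + 1 : ℂ)).neg).intervalIntegrable)
      ((Complex.continuous_ofReal.comp (QQ_cont hP n)).intervalIntegrable _ _)
    rw [ih (by omega), h3, QQ_one hP m hmom n hn, QQ_left hδ hs (n + 1) (δ / 2) (by linarith)]
    have h4 : ∫ u in (δ / 2)..1, -((n + 1 : ℂ) * kk x (n + 2) u) * ((QQ P (n + 1) u : ℝ) : ℂ) =
        -((n + 1 : ℂ) * ∫ u in (δ / 2)..1, kk x (n + 1 + 1) u * ((QQ P (n + 1) u : ℝ) : ℂ)) := by
      rw [← intervalIntegral.integral_const_mul, ← intervalIntegral.integral_neg]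
      congr 1
      funext u
      ring
    rw [h4, Nat.factorial_succ]
    push_cast
    ring

end Pool.Agent.Q177.BD
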