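import Pool.Agent.Q181.BD.Stm3
import Mathlib.Analysis.Polynomial.MahlerMeasure
import Mathlib.NumberTheory.MahlerMeasure

set_option autoImplicit false

/-!
# Mahler measures of products of binomials (BD-MAH, A9)
-/

namespace Pool.Agent.Q177.BD

open Pool.Agent.Q181.BD Polynomial

/-- the Mahler measure of an integer polynomial -/
noncomputable def mm (P : ℤ[X]) : ℝ := (P.map (Int.castRingHom ℂ)).mahlerMeasure

theorem mm_mul (P Q : ℤ[X]) : mm (P * Q) = mm P * mm Q := by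
  unfold mm
  rw [Polynomial.map_mul, mahlerMeasure_mul]

theorem mm_X_pow (n : ℕ) : mm (X ^ n) = 1 := by
  induction n with
  | zero => simp [mm]
  | succ n ih =>
    rw [pow_succ, mm_mul, ih, one_mul]
    unfold mm
    rw [Polynomial.map_X]
    have := mahlerMeasure_X_sub_C (0 : ℂ)
    simpa using this

theorem mm_C (a : ℤ) : mm (C a) = (a.natAbs : ℝ) := by
  unfold mm
  rw [Polynomial.map_C, mahlerMeasure_const]
  simp [Int.norm_eq_abs, Nat.cast_natAbs]

theorem mah_pow_sub (k : ℕ) (hk : 0 < k) (c : ℂ) :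
    (X ^ k - C c : ℂ[X]).mahlerMeasure = max 1 ‖c‖ := by
  rw [mahlerMeasure_eq_leadingCoeff_mul_prod_roots, leadingCoeff_X_pow_sub_C hk, norm_one, one_mul]
  have hroot : ∀ z ∈ (X ^ k - C c : ℂ[X]).roots, z ^ k = c := by
    intro z hz
    have h1 := (mem_roots'.mp hz).2
    rw [IsRoot.def, eval_sub, eval_pow, eval_X, eval_C, sub_eq_zero] at h1
    exact h1
  have hcard : Multiset.card (X ^ k - C c : ℂ[X]).roots = k := by
    have h1 := (IsAlgClosed.splits (X ^ k - C c : ℂ[X])).natDegree_eq_card_roots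
    rw [natDegree_X_pow_sub_C] at h1
    exact h1.symm
  set r : ℝ := ‖c‖ ^ ((k : ℝ)⁻¹) with hr
  have hr0 : 0 ≤ r := by positivity
  have hrk : r ^ k = ‖c‖ := Real.rpow_inv_natCast_pow (norm_nonneg c) (by omega)
  have hnorm : ∀ z ∈ (X ^ k - C c : ℂ[X]).roots, max 1 ‖z‖ = max 1 r := by
    intro z hz
    have h1 : ‖z‖ ^ k = r ^ k := by rw [hrk, ← norm_pow, hroot z hz]
    rw [(pow_left_inj₀ (norm_nonneg z) hr0 (by omega)).mp h1]
  rw [Multiset.map_congr rfl hnorm, Multiset.map_const', Multiset.prod_replicate, hcard]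
  rcases le_total r 1 with h | h
  · rw [max_eq_left h, one_pow, max_eq_left]
    rw [← hrk]
    exact pow_le_one₀ hr0 h
  · rw [max_eq_right h, hrk, max_eq_right]
    rw [← hrk]
    exact one_le_pow₀ h

theorem mm_bin1 (a b : ℤ) (k : ℕ) : ∃ N : ℕ, mm (C a + C b * X ^ k) = N := by
  rcases Nat.eq_zero_or_pos k with rfl | hk
  · refine ⟨(a + b).natAbs, ?_⟩
    rw [pow_zero, mul_one, ← C_add, mm_C]
  by_cases hb : b = 0
  · refine ⟨a.natAbs, ?_⟩
    rw [hb, C_0, zero_mul, add_zero, mm_C]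
  · have hbc : (b : ℂ) ≠ 0 := by exact_mod_cast hb
    have hb0 : 0 < ‖(b : ℂ)‖ := norm_pos_iff.mpr hbc
    have h1 : (C a + C b * X ^ k : ℤ[X]).map (Int.castRingHom ℂ) =
        C (b : ℂ) * (X ^ k - C (-(a : ℂ) / b)) := by
      rw [Polynomial.map_add, Polynomial.map_mul, Polynomial.map_pow, Polynomial.map_C,
        Polynomial.map_C, Polynomial.map_X, mul_sub, ← C_mul]
      rw [mul_div_cancel₀ _ hbc, C_neg]
      simp only [eq_intCast]
      ring
    refine ⟨max b.natAbs a.natAbs, ?_⟩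
    have h2 : mm (C a + C b * X ^ k) = ‖(b : ℂ)‖ * max 1 ‖-(a : ℂ) / b‖ := by
      unfold mm
      rw [h1, mahlerMeasure_mul, mahlerMeasure_const, mah_pow_sub k hk]
    rw [h2, norm_div, norm_neg, mul_max_of_nonneg _ _ hb0.le, mul_one, mul_div_cancel₀ _ hb0.ne']
    rw [Nat.cast_max]
    have h3 : ∀ z : ℤ, ‖(z : ℂ)‖ = (z.natAbs : ℝ) := by
      intro z
      simp [Int.norm_eq_abs, Nat.cast_natAbs]
    rw [h3, h3]

theorem mm_bin (a b : ℤ) (i j : ℕ) : ∃ N : ℕ, mm (C a * X ^ i + C b * X ^ j) = N := by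
  rcases le_total i j with h | h
  · obtain ⟨N, hN⟩ := mm_bin1 a b (j - i)
    refine ⟨N, ?_⟩
    have h1 : (C a * X ^ i + C b * X ^ j : ℤ[X]) = X ^ i * (C a + C b * X ^ (j - i)) := by
      obtain ⟨m, rfl⟩ := Nat.exists_eq_add_of_le h
      rw [Nat.add_sub_cancel_left, pow_add]
      ring
    rw [h1, mm_mul, mm_X_pow, one_mul, hN]
  · obtain ⟨N, hN⟩ := mm_bin1 b a (i - j)
    refine ⟨N, ?_⟩
    have h1 : (C a * X ^ i + C b * X ^ j : ℤ[X]) = X ^ j * (C b + C a * X ^ (i - j)) := by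
      obtain ⟨m, rfl⟩ := Nat.exists_eq_add_of_le h
      rw [Nat.add_sub_cancel_left, pow_add]
      ring
    rw [h1, mm_mul, mm_X_pow, one_mul, hN]

/-- `t ^ n` -/
noncomputable def tt (n : ℤ) : MonoidAlgebra ℤ (Multiplicative ℤ) :=
  MonoidAlgebra.single (Multiplicative.ofAdd n) 1

theorem tt_mul (m n : ℤ) : tt m * tt n = tt (m + n) := by
  unfold tt
  rw [MonoidAlgebra.single_mul_single, mul_one, ofAdd_add]

theorem lau_mono (a : ℤ) (n : ℕ) :
    lau (C a * X ^ n) = MonoidAlgebra.single (Multiplicative.ofAdd (n : ℤ)) a := by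
  unfold lau
  rw [coe_eval₂RingHom, eval₂_mul, eval₂_C, eval₂_pow, eval₂_X, MonoidAlgebra.single_pow, one_pow]
  have h1 : (Int.castRingHom (MonoidAlgebra ℤ (Multiplicative ℤ))) a =
      MonoidAlgebra.single 1 a := by
    have : (Int.castRingHom (MonoidAlgebra ℤ (Multiplicative ℤ))) = algebraMap ℤ _ :=
      RingHom.ext_int _ _
    rw [this]
    rfl
  rw [h1, MonoidAlgebra.single_mul_single, mul_one, one_mul, ← ofAdd_nsmul]
  simp

theorem lau_X (n : ℕ) : lau (X ^ n) = tt n := by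
  have := lau_mono 1 n
  rw [C_1, one_mul] at this
  exact this

theorem lau_coeff (P : ℤ[X]) (n : ℕ) :
    (lau P).coeff (Multiplicative.ofAdd (n : ℤ)) = P.coeff n := by
  induction P using Polynomial.induction_on' with
  | add p q hp hq =>
    rw [map_add, MonoidAlgebra.coeff_add, Finsupp.add_apply, hp, hq, coeff_add]
  | monomial m a =>
    rw [← C_mul_X_pow_eq_monomial, lau_mono, MonoidAlgebra.coeff_single, coeff_C_mul_X_pow]
    rw [Finsupp.single_apply]
    by_cases h : m = n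
    · subst h; simp
    · rw [if_neg (fun h2 => h (by simpa using h2)), if_neg (fun h2 => h h2.symm)]

theorem lau_inj {P Q : ℤ[X]} (h : lau P = lau Q) : P = Q := by
  ext n
  rw [← lau_coeff, ← lau_coeff, h]

theorem exists_lau (F : MonoidAlgebra ℤ (Multiplicative ℤ)) :
    ∃ (Q : ℤ[X]) (k : ℕ), lau Q = tt k * F := by
  induction F using MonoidAlgebra.induction_linear with
  | zero => exact ⟨0, 0, by simp⟩
  | add F G hF hG =>
    obtain ⟨Q, k, hQ⟩ := hF
    obtain ⟨Q', k', hQ'⟩ := hG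
    refine ⟨X ^ k' * Q + X ^ k * Q', k + k', ?_⟩
    rw [map_add, map_mul, map_mul, hQ, hQ', lau_X, lau_X, mul_add, ← mul_assoc, ← mul_assoc,
      tt_mul, tt_mul]
    push_cast
    rw [add_comm (k' : ℤ) k]
  | single g a =>
    obtain ⟨m, rfl⟩ := Multiplicative.ofAdd.surjective g
    refine ⟨C a * X ^ (m.natAbs + m).toNat, m.natAbs, ?_⟩
    rw [lau_mono, tt, MonoidAlgebra.single_mul_single, one_mul, ← ofAdd_add]
    congr 2
    omega

/-- a polynomial times a power of `t` has an integral Mahler measure -/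
def Good (F : MonoidAlgebra ℤ (Multiplicative ℤ)) : Prop :=
  ∃ (Q : ℤ[X]) (k : ℕ) (N : ℕ), lau Q = tt k * F ∧ mm Q = N

theorem good_bin (x : (Multiplicative ℤ × ℤ) × (Multiplicative ℤ × ℤ)) :
    Good (MonoidAlgebra.single x.1.1 x.1.2 + MonoidAlgebra.single x.2.1 x.2.2) := by
  obtain ⟨⟨g, a⟩, ⟨h, b⟩⟩ := x
  obtain ⟨m, rfl⟩ := Multiplicative.ofAdd.surjective g
  obtain ⟨n, rfl⟩ := Multiplicative.ofAdd.surjective h
  obtain ⟨N, hN⟩ := mm_bin a b (m.natAbs + n.natAbs + m).toNat (m.natAbs + n.natAbs + n).toNat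
  refine ⟨_, m.natAbs + n.natAbs, N, ?_, hN⟩
  rw [map_add, lau_mono, lau_mono, mul_add, tt, MonoidAlgebra.single_mul_single,
    MonoidAlgebra.single_mul_single, one_mul, one_mul, ← ofAdd_add, ← ofAdd_add]
  have h1 : (((m.natAbs + n.natAbs + m).toNat : ℕ) : ℤ) = ((m.natAbs + n.natAbs : ℕ) : ℤ) + m := by
    omega
  have h2 : (((m.natAbs + n.natAbs + n).toNat : ℕ) : ℤ) = ((m.natAbs + n.natAbs : ℕ) : ℤ) + n := by
    omega
  rw [h1, h2]

theorem good_mul {F G : MonoidAlgebra ℤ (Multiplicative ℤ)} (hF : Good F) (hG : Good G) :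
    Good (F * G) := by
  obtain ⟨Q, k, N, h1, h2⟩ := hF
  obtain ⟨Q', k', N', h1', h2'⟩ := hG
  refine ⟨Q * Q', k + k', N * N', ?_, ?_⟩
  · rw [map_mul, h1, h1', Nat.cast_add, ← tt_mul]
    ring
  · rw [mm_mul, h2, h2', Nat.cast_mul]

theorem good_one : Good 1 := by
  refine ⟨1, 0, 1, ?_, ?_⟩
  · rw [map_one, mul_one]
    rfl
  · have := mm_X_pow 0
    rw [pow_zero] at this
    rw [this, Nat.cast_one]

theorem good_of_bin {F : MonoidAlgebra ℤ (Multiplicative ℤ)} (hF : Bin F) : Good F := by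
  obtain ⟨s, rfl⟩ := hF
  induction s using Multiset.induction_on with
  | empty => simpa using good_one
  | cons x s ih =>
    rw [Multiset.map_cons, Multiset.prod_cons]
    exact good_mul (good_bin x) ih

theorem t_mah : S_mah := by
  intro P f hP hf hass
  obtain ⟨Q, k, N, hQ, hmm⟩ := good_of_bin hf
  obtain ⟨u, hu⟩ := hass
  obtain ⟨U, a, hU⟩ := exists_lau (u : MonoidAlgebra ℤ (Multiplicative ℤ))
  obtain ⟨V, b, hV⟩ := exists_lau ((u⁻¹ : (MonoidAlgebra ℤ (Multiplicative ℤ))ˣ) :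
    MonoidAlgebra ℤ (Multiplicative ℤ))
  have hUV : U * V = X ^ (a + b) := by
    apply lau_inj
    rw [map_mul, hU, hV, lau_X, Nat.cast_add, ← tt_mul]
    have := u.mul_inv
    linear_combination (tt a * tt b) * this
  have hUne : U ≠ 0 := by
    rintro rfl
    rw [zero_mul] at hUV
    exact (pow_ne_zero _ X_ne_zero) hUV.symm
  have hVne : V ≠ 0 := by
    rintro rfl
    rw [mul_zero] at hUV
    exact (pow_ne_zero _ X_ne_zero) hUV.symm
  have hU1 : mm U = 1 := by
    have h1 : 1 ≤ mm U := one_le_mahlerMeasure_of_ne_zero hUne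
    have h2 : 1 ≤ mm V := one_le_mahlerMeasure_of_ne_zero hVne
    have h3 : mm U * mm V = 1 := by
      rw [← mm_mul, hUV, mm_X_pow]
    nlinarith
  have hPQ : P * U * X ^ k = X ^ a * Q := by
    apply lau_inj
    rw [map_mul, map_mul, map_mul, hU, hQ, lau_X, lau_X, ← hu]
    ring
  have hmP : mm P = N := by
    have := congrArg mm hPQ
    rwa [mm_mul, mm_mul, mm_mul, mm_X_pow, mm_X_pow, hU1, mul_one, mul_one, one_mul, hmm] at this
  refine ⟨N, ?_, hmP⟩
  have h1 : 1 ≤ mm P := one_le_mahlerMeasure_of_ne_zero hP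
  rw [hmP] at h1
  exact_mod_cast h1

end Pool.Agent.Q177.BD
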