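import Pool.Agent.Q177.BD.Wgt

/-!
# Project BD of helper286, job P7c (helper177): multiplicative smoothing of a weight
-/

set_option autoImplicit false

namespace Pool.Agent.Q177.BD

open Complex MeasureTheory Filter Topology Set
open Pool.Agent.Q286.BD (Fm Lap Wt)

/-- the law of a product -/
noncomputable def mc (φ : ℝ → ℝ) (ρ : Measure ℝ) (u : ℝ) : ℝ := ∫ w, φ (u / w) / w ∂ρ

variable {φ : ℝ → ℝ} {ρ : Measure ℝ} [IsProbabilityMeasure ρ] {δ r : ℝ}

theorem mc_cont (hφ : Continuous φ) (hs : ∀ u, φ u ≠ 0 → δ ≤ u ∧ u ≤ 1) (hr : 0 < r)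
    (hρ : ∀ᵐ w ∂ρ, r ≤ w ∧ w ≤ 1) : Continuous (mc φ ρ) := by
  obtain ⟨B, hB⟩ := (hcs hs).exists_bound_of_continuous hφ
  have hB0 : 0 ≤ B := le_trans (norm_nonneg _) (hB 0)
  apply continuous_of_dominated (bound := fun _ => B / r)
  · intro u
    exact ((hφ.measurable.comp (measurable_const.div measurable_id)).div measurable_id).aestronglyMeasurable
  · intro u
    filter_upwards [hρ] with w hw
    rw [norm_div]
    have h1 : r ≤ ‖w‖ := by
      rw [Real.norm_eq_abs]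
      exact le_trans hw.1 (le_abs_self _)
    exact div_le_div₀ hB0 (hB _) hr h1
  · exact integrable_const _
  · exact Eventually.of_forall fun w => (hφ.comp (continuous_id.div_const w)).div_const w

theorem mc_supp (hδ : 0 < δ) (hs : ∀ u, φ u ≠ 0 → δ ≤ u ∧ u ≤ 1) (hr : 0 < r)
    (hρ : ∀ᵐ w ∂ρ, r ≤ w ∧ w ≤ 1) (u : ℝ) (hu : mc φ ρ u ≠ 0) : r * δ ≤ u ∧ u ≤ 1 := by
  by_contra hcon
  apply hu
  have h1 : ∀ᵐ w ∂ρ, φ (u / w) / w = 0 := by
    filter_upwards [hρ] with w hw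
    have hw0 : 0 < w := lt_of_lt_of_le hr hw.1
    have h2 : φ (u / w) = 0 := by
      by_contra h3
      obtain ⟨a1, a2⟩ := hs _ h3
      rw [le_div_iff₀ hw0] at a1
      rw [div_le_iff₀ hw0] at a2
      apply hcon
      constructor
      · nlinarith [hw.1]
      · linarith [hw.2]
    rw [h2, zero_div]
  unfold mc
  rw [integral_congr_ae h1]
  simp

/-- Fubini -/
theorem mc_int (hφ : Continuous φ) (hδ : 0 < δ) (hs : ∀ u, φ u ≠ 0 → δ ≤ u ∧ u ≤ 1) (hr : 0 < r)
    (hρ : ∀ᵐ w ∂ρ, r ≤ w ∧ w ≤ 1) {k : ℝ → ℂ} (hk : Continuous k) :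
    ∫ u : ℝ, (mc φ ρ u : ℂ) * k u = ∫ w, (∫ s : ℝ, (φ s : ℂ) * k (s * w)) ∂ρ := by
  obtain ⟨B, hB⟩ := (hcs hs).exists_bound_of_continuous hφ
  have hB0 : 0 ≤ B := le_trans (norm_nonneg _) (hB 0)
  obtain ⟨K, hK⟩ := (isCompact_Icc (a := (0 : ℝ)) (b := 1)).exists_bound_of_continuousOn hk.continuousOn
  have hK0 : 0 ≤ K := le_trans (norm_nonneg _) (hK 0 ⟨le_rfl, zero_le_one⟩)
  have h1 : ∀ u : ℝ, (mc φ ρ u : ℂ) * k u = ∫ w, ((φ (u / w) / w : ℝ) : ℂ) * k u ∂ρ := by
    intro u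
    rw [integral_mul_const, integral_complex_ofReal]
    rfl
  simp only [h1]
  have hint : Integrable (Function.uncurry fun (u w : ℝ) => ((φ (u / w) / w : ℝ) : ℂ) * k u)
      (volume.prod ρ) := by
    have h2 : Integrable (fun u : ℝ => (Icc (0 : ℝ) 1).indicator (fun _ => B / r * K) u) := by
      rw [integrable_indicator_iff measurableSet_Icc]
      exact integrableOn_const (by simp)
    have h3 := h2.comp_fst ρ
    refine h3.mono' ?_ ?_
    · have m1 : Measurable fun p : ℝ × ℝ => φ (p.1 / p.2) / p.2 :=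
        (hφ.measurable.comp (measurable_fst.div measurable_snd)).div measurable_snd
      have m2 : Measurable fun p : ℝ × ℝ => ((φ (p.1 / p.2) / p.2 : ℝ) : ℂ) * k p.1 :=
        (Complex.measurable_ofReal.comp m1).mul (hk.measurable.comp measurable_fst)
      exact m2.aestronglyMeasurable
    · have h4 : ∀ᵐ p ∂((volume : Measure ℝ).prod ρ), r ≤ p.2 ∧ p.2 ≤ 1 :=
        Measure.quasiMeasurePreserving_snd.ae hρ
      filter_upwards [h4] with p hp
      obtain ⟨u, w⟩ := p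
      simp only at hp
      have hw0 : 0 < w := lt_of_lt_of_le hr hp.1
      simp only [Function.uncurry]
      by_cases h5 : φ (u / w) = 0
      · rw [h5, zero_div]
        simp only [ofReal_zero, zero_mul, norm_zero]
        apply indicator_nonneg
        intro _ _
        positivity
      · obtain ⟨a1, a2⟩ := hs _ h5
        rw [le_div_iff₀ hw0] at a1
        rw [div_le_iff₀ hw0] at a2
        have hu : u ∈ Icc (0 : ℝ) 1 := ⟨by nlinarith, by linarith [hp.2]⟩
        rw [indicator_of_mem hu, norm_mul, Complex.norm_real, norm_div]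
        have h6 : r ≤ ‖w‖ := by
          rw [Real.norm_eq_abs]
          exact le_trans hp.1 (le_abs_self _)
        have h7 : ‖φ (u / w)‖ / ‖w‖ ≤ B / r := div_le_div₀ hB0 (hB _) hr h6
        exact mul_le_mul h7 (hK u hu) (norm_nonneg _) (by positivity)
  rw [integral_integral_swap hint]
  apply integral_congr_ae
  filter_upwards [hρ] with w hw
  have hw0 : 0 < w := lt_of_lt_of_le hr hw.1
  have h8 := Measure.integral_comp_div (fun s : ℝ => (φ s : ℂ) * k (s * w)) w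
  have h9 : ∫ s : ℝ, (φ s : ℂ) * k (s * w) = (w : ℂ)⁻¹ * ∫ u : ℝ, (φ (u / w) : ℂ) * k (u / w * w) := by
    rw [h8, abs_of_pos hw0, Complex.real_smul, ← mul_assoc, inv_mul_cancel₀, one_mul]
    exact_mod_cast hw0.ne'
  rw [h9, ← integral_const_mul]
  congr 1
  funext u
  rw [div_mul_cancel₀ _ hw0.ne']
  push_cast
  ring

theorem mc_mass (hφ : Continuous φ) (hδ : 0 < δ) (hs : ∀ u, φ u ≠ 0 → δ ≤ u ∧ u ≤ 1) (hr : 0 < r)
    (hρ : ∀ᵐ w ∂ρ, r ≤ w ∧ w ≤ 1) (h1 : ∫ u, φ u = 1) : ∫ u, mc φ ρ u = 1 := by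
  have h2 := mc_int hφ hδ hs hr hρ (k := fun _ => (1 : ℂ)) continuous_const
  simp only [mul_one] at h2
  rw [integral_complex_ofReal] at h2
  have h3 : ∫ s : ℝ, (φ s : ℂ) = 1 := by
    rw [integral_complex_ofReal, h1]
    simp
  rw [h3] at h2
  simp only [integral_const, probReal_univ, one_smul] at h2
  exact_mod_cast h2

theorem mc_Fm (hφ : Continuous φ) (hδ : 0 < δ) (hs : ∀ u, φ u ≠ 0 → δ ≤ u ∧ u ≤ 1) (hr : 0 < r)
    (hρ : ∀ᵐ w ∂ρ, r ≤ w ∧ w ≤ 1) (m : ℕ) (x : ℝ) :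
    Fm m (mc φ ρ) x = ∫ w, Fm m φ (x * w) ∂ρ := by
  have h2 := mc_int hφ hδ hs hr hρ (k := fun u => Km m (x * u))
    ((Km_continuous m).comp (continuous_const.mul continuous_id))
  rw [Fm_eq, h2, ← integral_neg]
  congr 1
  funext w
  rw [Fm_eq]
  congr 2
  funext s
  rw [show x * (s * w) = x * w * s by ring]

theorem mc_Lap (hφ : Continuous φ) (hδ : 0 < δ) (hs : ∀ u, φ u ≠ 0 → δ ≤ u ∧ u ≤ 1) (hr : 0 < r)
    (hρ : ∀ᵐ w ∂ρ, r ≤ w ∧ w ≤ 1) (z : ℂ) :
    Lap (mc φ ρ) z = ∫ s : ℝ, (φ s : ℂ) * ∫ w, cexp (z * s * w) ∂ρ := by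
  have h2 := mc_int hφ hδ hs hr hρ (k := fun u => cexp (z * u)) (by fun_prop)
  unfold Lap
  rw [h2]
  have hφi : Integrable φ := hφ.integrable_of_hasCompactSupport (hcs hs)
  have hint : Integrable (Function.uncurry fun (w s : ℝ) => (φ s : ℂ) * cexp (z * ((s * w : ℝ) : ℂ)))
      (ρ.prod volume) := by
    have h3 : Integrable (fun s : ℝ => ‖φ s‖ * Real.exp ‖z‖) := hφi.norm.mul_const _
    have h4 := h3.comp_snd ρ
    refine h4.mono' ?_ ?_
    · have m1 : Measurable fun p : ℝ × ℝ => (φ p.2 : ℂ) * cexp (z * ((p.2 * p.1 : ℝ) : ℂ)) := by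
        have a1 : Measurable fun p : ℝ × ℝ => (φ p.2 : ℂ) :=
          Complex.measurable_ofReal.comp (hφ.measurable.comp measurable_snd)
        have a2 : Continuous fun p : ℝ × ℝ => cexp (z * ((p.2 * p.1 : ℝ) : ℂ)) := by fun_prop
        exact a1.mul a2.measurable
      exact m1.aestronglyMeasurable
    · have h4 : ∀ᵐ p ∂(ρ.prod (volume : Measure ℝ)), r ≤ p.1 ∧ p.1 ≤ 1 :=
        Measure.quasiMeasurePreserving_fst.ae hρ
      filter_upwards [h4] with p hp
      obtain ⟨w, s⟩ := p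
      simp only at hp
      simp only [Function.uncurry]
      rw [norm_mul, Complex.norm_real]
      by_cases h5 : φ s = 0
      · rw [h5]; simp
      · obtain ⟨a1, a2⟩ := hs _ h5
        apply mul_le_mul_of_nonneg_left _ (norm_nonneg _)
        rw [Complex.norm_exp]
        apply Real.exp_le_exp.2
        refine (Complex.re_le_norm _).trans ?_
        rw [norm_mul, Complex.norm_real, Real.norm_eq_abs, abs_of_nonneg (by nlinarith)]
        have : s * w ≤ 1 := by nlinarith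
        nlinarith [norm_nonneg z]
  rw [integral_integral_swap hint]
  congr 1
  funext s
  rw [← integral_const_mul]
  congr 1
  funext w
  congr 2
  push_cast
  ring

theorem jensen {f : ℝ → ℝ} (h1 : Integrable f ρ) (h2 : Integrable (fun w => f w ^ 2) ρ) :
    (∫ w, f w ∂ρ) ^ 2 ≤ ∫ w, f w ^ 2 ∂ρ := by
  set a := ∫ w, f w ∂ρ with ha
  have h3 : 0 ≤ ∫ w, (f w - a) ^ 2 ∂ρ := integral_nonneg fun w => sq_nonneg _
  have h4 : ∫ w, (f w - a) ^ 2 ∂ρ = (∫ w, f w ^ 2 ∂ρ) - 2 * a * (∫ w, f w ∂ρ) + a ^ 2 := by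
    have h5 : ∀ w, (f w - a) ^ 2 = f w ^ 2 - 2 * a * f w + a ^ 2 := fun w => by ring
    simp only [h5]
    have i1 : Integrable (fun w => 2 * a * f w) ρ := h1.const_mul _
    have i2 : Integrable (fun w => f w ^ 2 - 2 * a * f w) ρ := h2.sub i1
    rw [integral_add i2 (integrable_const _), integral_sub h2 i1, integral_const_mul]
    simp
  rw [h4, ← ha] at h3
  nlinarith

theorem sq_avg {F : ℝ → ℂ} (hF : Continuous F) {K : ℝ} (hK : ∀ x, ‖F x‖ ≤ K)
    (hi : Integrable fun x => ‖F x‖ ^ 2) (hr : 0 < r) (hρ : ∀ᵐ w ∂ρ, r ≤ w ∧ w ≤ 1) :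
    Integrable (fun x => ‖∫ w, F (x * w) ∂ρ‖ ^ 2) ∧
      ∫ x, ‖∫ w, F (x * w) ∂ρ‖ ^ 2 ≤ 1 / r * ∫ x, ‖F x‖ ^ 2 := by
  have hK0 : 0 ≤ K := le_trans (norm_nonneg _) (hK 0)
  set S := ∫ x, ‖F x‖ ^ 2 with hS
  have hS0 : 0 ≤ S := integral_nonneg fun x => by positivity
  have hFm : Continuous fun p : ℝ × ℝ => F (p.1 * p.2) := hF.comp (continuous_fst.mul continuous_snd)
  have hval : ∀ w : ℝ, ∫ x : ℝ, ‖F (x * w)‖ ^ 2 = |w⁻¹| * S := by
    intro w
    have := Measure.integral_comp_mul_right (fun x => ‖F x‖ ^ 2) w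
    rw [this, smul_eq_mul]
  have hb : ∀ᵐ w ∂ρ, |w⁻¹| * S ≤ 1 / r * S := by
    filter_upwards [hρ] with w hw
    have hw0 : 0 < w := lt_of_lt_of_le hr hw.1
    rw [abs_of_pos (inv_pos.2 hw0)]
    apply mul_le_mul_of_nonneg_right _ hS0
    rw [← one_div]
    exact one_div_le_one_div_of_le hr hw.1
  have hwi : Integrable (fun w => |w⁻¹| * S) ρ := by
    refine (integrable_const (1 / r * S)).mono' ?_ ?_
    · exact ((measurable_inv.abs).mul measurable_const).aestronglyMeasurable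
    · filter_upwards [hb] with w hw
      rw [Real.norm_eq_abs, abs_of_nonneg (by positivity)]
      exact hw
  have hint : Integrable (fun p : ℝ × ℝ => ‖F (p.1 * p.2)‖ ^ 2) ((volume : Measure ℝ).prod ρ) := by
    have hm : AEStronglyMeasurable (fun p : ℝ × ℝ => ‖F (p.1 * p.2)‖ ^ 2) ((volume : Measure ℝ).prod ρ) :=
      (hFm.norm.pow 2).aestronglyMeasurable
    rw [integrable_prod_iff' hm]
    constructor
    · filter_upwards [hρ] with w hw
      have hw0 : 0 < w := lt_of_lt_of_le hr hw.1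
      exact hi.comp_mul_right' hw0.ne'
    · have : (fun w : ℝ => ∫ x : ℝ, ‖‖F (x * w)‖ ^ 2‖) = fun w => |w⁻¹| * S := by
        funext w
        rw [← hval w]
        congr 1
        funext x
        rw [Real.norm_eq_abs, abs_of_nonneg (by positivity)]
      simp only
      rw [this]
      exact hwi
  have hmeas : AEStronglyMeasurable (fun x => ‖∫ w, F (x * w) ∂ρ‖ ^ 2) (volume : Measure ℝ) := by
    have h1 : StronglyMeasurable fun x : ℝ => ∫ w, F (x * w) ∂ρ :=
      hFm.stronglyMeasurable.integral_prod_right'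
    exact (h1.norm.pow 2).aestronglyMeasurable
  have hJ : ∀ x, ‖∫ w, F (x * w) ∂ρ‖ ^ 2 ≤ ∫ w, ‖F (x * w)‖ ^ 2 ∂ρ := by
    intro x
    have hc : Continuous fun w : ℝ => F (x * w) := hF.comp (continuous_const.mul continuous_id)
    have i1 : Integrable (fun w : ℝ => ‖F (x * w)‖) ρ := by
      refine (integrable_const K).mono' hc.norm.aestronglyMeasurable ?_
      exact Eventually.of_forall fun w => by rw [norm_norm]; exact hK _
    have i2 : Integrable (fun w : ℝ => ‖F (x * w)‖ ^ 2) ρ := by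
      refine (integrable_const (K ^ 2)).mono' (hc.norm.pow 2).aestronglyMeasurable ?_
      refine Eventually.of_forall fun w => ?_
      rw [Real.norm_eq_abs, abs_of_nonneg (by positivity)]
      exact pow_le_pow_left₀ (norm_nonneg _) (hK _) 2
    calc ‖∫ w, F (x * w) ∂ρ‖ ^ 2 ≤ (∫ w, ‖F (x * w)‖ ∂ρ) ^ 2 :=
          pow_le_pow_left₀ (norm_nonneg _) (norm_integral_le_integral_norm _) 2
      _ ≤ _ := jensen i1 i2
  have hI := hint.integral_prod_left
  constructor
  · refine hI.mono' hmeas (Eventually.of_forall fun x => ?_)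
    rw [Real.norm_eq_abs, abs_of_nonneg (by positivity)]
    exact hJ x
  · calc ∫ x, ‖∫ w, F (x * w) ∂ρ‖ ^ 2 ≤ ∫ x, ∫ w, ‖F (x * w)‖ ^ 2 ∂ρ := by
          apply integral_mono_of_nonneg (Eventually.of_forall fun x => by positivity) hI
          exact Eventually.of_forall hJ
      _ = ∫ w, (∫ x, ‖F (x * w)‖ ^ 2) ∂ρ := integral_integral_swap hint
      _ = ∫ w, |w⁻¹| * S ∂ρ := by simp only [hval]
      _ ≤ ∫ w, 1 / r * S ∂ρ := integral_mono_ae hwi (integrable_const _) hb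
      _ = 1 / r * S := by simp

end Pool.Agent.Q177.BD
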