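import Pool.Agent.Q177.BD.Ker
import Pool.Agent.Helper625.Planch

/-!
# Project BD of helper286, job P7c (helper177): the weight of a function with moments
-/

set_option autoImplicit false

namespace Pool.Agent.Q177.BD

open Complex MeasureTheory Filter Topology Set
open Pool.Agent.Q286.BD (Fm Lap Wt)

/-- the weight attached to `P` -/
noncomputable def ph (n : ℕ) (P : ℝ → ℝ) (u : ℝ) : ℝ := n.factorial * QQ P n u / u ^ (n + 1)

theorem Fm_eq (m : ℕ) (φ : ℝ → ℝ) (x : ℝ) : Fm m φ x = -∫ u : ℝ, (φ u : ℂ) * Km m (x * u) := by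
  unfold Fm Km
  congr 2
  funext u
  push_cast
  ring

variable {P : ℝ → ℝ} {δ : ℝ} {n : ℕ}

theorem ph_supp (hP : Continuous P) (hδ : 0 < δ) (hs : ∀ u, P u ≠ 0 → δ ≤ u ∧ u ≤ 1)
    (hmom : ∀ i : ℕ, 1 ≤ i → i < n + 1 → ∫ v in (0 : ℝ)..1, P v * v ^ i = 0) :
    ∀ u, ph n P u ≠ 0 → δ ≤ u ∧ u ≤ 1 := by
  intro u hu
  have h1 : QQ P n u ≠ 0 := fun h => hu (by simp [ph, h])
  constructor
  · by_contra h
    exact h1 (QQ_left hδ hs n u (not_le.1 h))
  · by_contra h
    exact h1 (QQ_right hP hs (n + 1) hmom n (by omega) u (not_le.1 h))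

theorem ph_cont (hP : Continuous P) (hδ : 0 < δ) (hs : ∀ u, P u ≠ 0 → δ ≤ u ∧ u ≤ 1) :
    Continuous (ph n P) := by
  rw [continuous_iff_continuousAt]
  intro u
  rcases lt_or_ge u δ with h | h
  · have h1 : ph n P =ᶠ[𝓝 u] fun _ => 0 := by
      filter_upwards [Iio_mem_nhds h] with v hv
      simp [ph, QQ_left hδ hs n v hv]
    exact continuousAt_const.congr h1.symm
  · have hu : u ≠ 0 := by linarith [hδ] |> fun h' : 0 < u => h'.ne'
    exact ((continuous_const.mul (QQ_cont hP n)).continuousAt).div (continuous_pow _).continuousAt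
      (pow_ne_zero _ hu)

theorem ph_Km (hP : Continuous P) (hδ : 0 < δ) (hs : ∀ u, P u ≠ 0 → δ ≤ u ∧ u ≤ 1)
    (hmom : ∀ i : ℕ, 1 ≤ i → i < n + 1 → ∫ v in (0 : ℝ)..1, P v * v ^ i = 0) (x : ℝ) :
    ∫ u : ℝ, (ph n P u : ℂ) * Km (n + 1) (x * u) = ∫ v : ℝ, (P v : ℂ) * cexp (-(x * v * I)) := by
  have h1 : ∫ u : ℝ, (ph n P u : ℂ) * Km (n + 1) (x * u) =
      ∫ u in (δ / 2)..1, (ph n P u : ℂ) * Km (n + 1) (x * u) := by
    rw [intervalIntegral.integral_eq_integral_of_support_subset]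
    intro u hu
    have h : ph n P u ≠ 0 := by
      intro h
      apply hu
      simp [h]
    have := ph_supp hP hδ hs hmom u h
    exact ⟨by linarith, this.2⟩
  have h2 : ∫ v : ℝ, (P v : ℂ) * cexp (-(x * v * I)) =
      ∫ v in (δ / 2)..1, (P v : ℂ) * cexp (-(x * v * I)) := by
    rw [intervalIntegral.integral_eq_integral_of_support_subset]
    intro u hu
    have h : P u ≠ 0 := by
      intro h
      apply hu
      simp [h]
    have := hs u h
    exact ⟨by linarith, this.2⟩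
  have h3 := QQ_kk hP hδ hs (n + 1) hmom x n (by omega)
  have h4 : ∫ u in (δ / 2)..1, (ph n P u : ℂ) * Km (n + 1) (x * u) =
      (n.factorial : ℂ) * ∫ u in (δ / 2)..1, kk x (n + 1) u * (QQ P n u : ℂ) := by
    rw [← intervalIntegral.integral_const_mul]
    congr 1
    funext u
    simp only [ph, kk]
    push_cast
    ring
  have h5 : ∫ v in (δ / 2)..1, (P v : ℂ) * cexp (-(x * v * I)) =
      ∫ u in (δ / 2)..1, kk x 1 u * (QQ P 0 u : ℂ) := by
    apply intervalIntegral.integral_congr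
    intro u hu
    have h6 : min (δ / 2) 1 ≤ u := hu.1
    have h7 : 0 < min (δ / 2) 1 := lt_min (by linarith) one_pos
    have hu0 : (u : ℂ) ≠ 0 := by exact_mod_cast (lt_of_lt_of_le h7 h6).ne'
    simp only [kk, Km, QQ, Finset.sum_range_one, pow_zero, Nat.factorial_zero, Nat.cast_one, div_one,
      mul_one, pow_one]
    push_cast
    field_simp
  rw [h1, h2, h4, h5, h3]

theorem Fm_ph (hP : Continuous P) (hδ : 0 < δ) (hs : ∀ u, P u ≠ 0 → δ ≤ u ∧ u ≤ 1)
    (hmom : ∀ i : ℕ, 1 ≤ i → i < n + 1 → ∫ v in (0 : ℝ)..1, P v * v ^ i = 0) (x : ℝ) :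
    Fm (n + 1) (ph n P) x = -∫ v : ℝ, (P v : ℂ) * cexp (-(x * v * I)) := by
  rw [Fm_eq, ph_Km hP hδ hs hmom]

theorem hcs (hs : ∀ u, P u ≠ 0 → δ ≤ u ∧ u ≤ 1) : HasCompactSupport P := by
  apply HasCompactSupport.intro (isCompact_Icc (a := δ) (b := 1))
  intro u hu
  by_contra h
  exact hu (hs u h)

theorem ph_mass (hP : Continuous P) (hδ : 0 < δ) (hs : ∀ u, P u ≠ 0 → δ ≤ u ∧ u ≤ 1)
    (hmom : ∀ i : ℕ, 1 ≤ i → i < n + 1 → ∫ v in (0 : ℝ)..1, P v * v ^ i = 0)
    (h0 : ∫ v : ℝ, P v = 1) : ∫ u : ℝ, ph n P u = 1 := by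
  have h1 := ph_Km hP hδ hs hmom 0
  have h2 : ∀ u : ℝ, Km (n + 1) (0 * u) = 1 := by
    intro u
    unfold Km
    rw [Finset.sum_range_succ']
    simp
  simp only [h2, mul_one] at h1
  have h3 : ∫ v : ℝ, (P v : ℂ) * cexp (-(((0 : ℝ) : ℂ) * v * I)) = ((∫ v : ℝ, P v : ℝ) : ℂ) := by
    rw [← integral_complex_ofReal]
    congr 1
    funext v
    simp
  rw [h3, h0, integral_complex_ofReal] at h1
  exact_mod_cast h1

/-- Plancherel -/
theorem planch (hP : Continuous P) (hs : ∀ u, P u ≠ 0 → δ ≤ u ∧ u ≤ 1) :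
    Integrable (fun x : ℝ => ‖∫ v : ℝ, (P v : ℂ) * cexp (-(x * v * I))‖ ^ 2) ∧
    1 / (2 * Real.pi) * ∫ x : ℝ, ‖∫ v : ℝ, (P v : ℂ) * cexp (-(x * v * I))‖ ^ 2 = ∫ v : ℝ, P v ^ 2 := by
  set f : ℝ → ℂ := fun v => (P v : ℂ) with hf
  have hfc : Continuous f := Complex.continuous_ofReal.comp hP
  have hfs : HasCompactSupport f := by
    apply HasCompactSupport.intro (isCompact_Icc (a := δ) (b := 1))
    intro u hu
    have : P u = 0 := by
      by_contra h
      exact hu (hs u h)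
    simp [hf, this]
  have h1 : Integrable f := hfc.integrable_of_hasCompactSupport hfs
  have h2 : MemLp f 2 := hfc.memLp_of_hasCompactSupport hfs
  obtain ⟨h3, h4⟩ := Pool.Agent.Helper625.Planch.plancherel f h1 h2
  have h5 : ∀ x : ℝ, ∫ v : ℝ, (P v : ℂ) * cexp (-(x * v * I)) =
      FourierTransform.fourier f (x / (2 * Real.pi)) := by
    intro x
    rw [Real.fourier_real_eq_integral_exp_smul]
    congr 1
    funext v
    rw [smul_eq_mul, mul_comm]
    congr 2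
    have hpi : (Real.pi : ℂ) ≠ 0 := by exact_mod_cast Real.pi_ne_zero
    push_cast
    field_simp
  have h6 : Integrable (fun ξ : ℝ => ‖FourierTransform.fourier f ξ‖ ^ 2) :=
    (memLp_two_iff_integrable_sq_norm h3.1).1 h3
  have hpi2 : (2 * Real.pi : ℝ) ≠ 0 := by positivity
  have h7 : Integrable (fun x : ℝ => ‖FourierTransform.fourier f (x / (2 * Real.pi))‖ ^ 2) :=
    h6.comp_div hpi2
  have h8 := Measure.integral_comp_div (fun ξ : ℝ => ‖FourierTransform.fourier f ξ‖ ^ 2) (2 * Real.pi)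
  constructor
  · simp only [h5]
    exact h7
  · simp only [h5]
    rw [h8, h4, abs_of_pos (by positivity), smul_eq_mul, ← mul_assoc, one_div,
      inv_mul_cancel₀ hpi2, one_mul]
    congr 1
    funext v
    rw [hf]
    simp

end Pool.Agent.Q177.BD
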